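import Pool.Agent.W_MP_c93f48_co.Affine

set_option autoImplicit false

namespace Pool.Agent.W_MP_c93f48_co

lemma binary_cube : ∀ m ∈ List.range 1024,
    ([(0,1),(1,1),(2,1),(3,1),(4,1),(5,1),(6,1),(7,1),(0,2),(1,2),(2,2),(3,2),(4,2),(0,3),(1,3)] :
      List (ℕ × ℕ)).any (fun p =>
        ((List.range p.2).map fun k => (m.testBit (p.1 + k)).toNat).sum ==
          ((List.range p.2).map fun k => (m.testBit (p.1 + p.2 + k)).toNat).sum &&
        ((List.range p.2).map fun k => (m.testBit (p.1 + p.2 + k)).toNat).sum ==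
          ((List.range p.2).map fun k => (m.testBit (p.1 + 2 * p.2 + k)).toNat).sum) = true := by
  decide +kernel

/-- Additive cubes are unavoidable over two letters. -/
theorem not_noCube_two (p q : ℕ) (x : ℕ → ℕ) (hx : ∀ i, x i = p ∨ x i = q) : ¬ NoCube x := by
  intro hc
  let f : Fin 10 → Bool := fun k => decide (x k = p)
  set m := Nat.ofBits f with hm
  have hbit : ∀ k, k < 10 → m.testBit k = decide (x k = p) := by
    intro k hk
    rw [hm, Nat.testBit_ofBits_lt f k hk]
  have hval : ∀ k, k < 10 → (x k : ℤ) = q + (p - q) * ((m.testBit k).toNat : ℤ) := by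
    intro k hk
    rw [hbit k hk]
    rcases hx k with h | h
    · simp [h]
    · by_cases h' : q = p
      · simp [h, h']
      · have : ¬ (x k = p) := by rw [h]; exact h'
        simp [h, h']
  have hsum : ∀ i n, i + n ≤ 10 → ((∑ k ∈ Finset.range n, x (i + k) : ℕ) : ℤ) =
      n * q + (p - q) * (((List.range n).map fun k => (m.testBit (i + k)).toNat).sum : ℕ) := by
    intro i n hn
    have e : (((List.range n).map fun k => (m.testBit (i + k)).toNat).sum : ℕ) =
        ∑ k ∈ Finset.range n, (m.testBit (i + k)).toNat := by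
      rw [Finset.sum_range]
      rw [← List.sum_ofFn]
      congr 1
      apply List.ext_getElem <;> simp
    rw [e]
    push_cast
    rw [Finset.sum_congr rfl (fun k hk => hval (i + k) (by
      have := Finset.mem_range.1 hk
      omega))]
    rw [Finset.sum_add_distrib, ← Finset.mul_sum]
    simp
  have hlt : m < 1024 := by
    have := Nat.ofBits_lt_two_pow f
    simpa using this
  have hb := binary_cube m (List.mem_range.2 hlt)
  rw [List.any_eq_true] at hb
  obtain ⟨⟨i, n⟩, hin, hb⟩ := hb
  rw [Bool.and_eq_true] at hb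
  obtain ⟨h1, h2⟩ := hb
  have h1' := eq_of_beq h1
  have h2' := eq_of_beq h2
  dsimp only at h1' h2'
  have hcase : 0 < n ∧ i + 3 * n ≤ 10 := by
    simp only [List.mem_cons, Prod.mk.injEq, List.not_mem_nil, or_false] at hin
    omega
  refine hc i n hcase.1 ⟨?_, ?_⟩
  · have a := hsum i n (by omega)
    have b := hsum (i + n) n (by omega)
    rw [h1', ← b] at a
    exact_mod_cast a
  · have a := hsum (i + n) n (by omega)
    have b := hsum (i + 2 * n) n (by omega)
    rw [h2', ← b] at a
    exact_mod_cast a

end Pool.Agent.W_MP_c93f48_co
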