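import Pool.Agent.W_MP_c93f48_co.Unb

set_option autoImplicit false

namespace Pool.Agent.W_MP_c93f48_co

/-- morphism on `{0,1,2,3}` -/
def g0123 : ℕ → List ℕ
  | 0 => [1,3,2,3,3,2,3,0,2,2,3,2,3,3,0,3,0,2,3]
  | 1 => [1,3,2,3,3,2,3,0,2,3,0,1,0,3,0,1,0,3,0,2,3]
  | 2 => [1,3,2,3,2,0,1,2,2,0,1,0,0,1,0,3,0,1,0,3,0,2,3]
  | _ => [1,0,0,3,0,1,1,0,1,2,2,0,1,0,0,1,0,3,0,1,0,3,0,2,3]

/-- natural weight `(1, b)` of a letter -/
def nw (b : ℕ) : ℕ × ℕ := (1, b)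

lemma zw_nw : zw nw = tw := by
  funext b; simp [zw, nw, tw]

/-- all prefix classes mod 175 -/
def cl0123 : List ℕ := [92, 103, 112, 123, 49, 58, 69, 74, 83, 18, 27, 38, 0, 7, 12, 17, 28, 33, 40,
  47, 52, 59, 68, 77, 82, 89, 94, 99, 106, 111, 122, 127, 134, 139, 150, 155, 164]

/-- the classes of suffix type -/
def suf0123 : List ℕ := [47, 52, 59, 68, 77, 82, 89, 94, 99, 106, 111, 122, 127, 134, 139, 150,
  155, 164]

theorem strong0123 : Strong {s | s ∈ [0,1,2,3]} tw tw g0123 (lin 19 2 40 (-5))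
    (clsm (5 : ℕ) (2 : ℕ) 175) := by
  have := strong_of_check [0,1,2,3] tw nw g0123 19 2 40 (-5) 5 2 175 cl0123 suf0123
    (by norm_num) (by intro b; simp [nw]) (by norm_num) (by decide) (by decide) (by decide)
    (by decide +kernel) (by decide +kernel) (by decide +kernel) (by decide)
  rwa [zw_nw] at this

theorem unb0123 : Unb {s | s ∈ [0,1,2,3]} tw := by
  refine Unb.self strong0123 ?_ ?_ ⟨0, by simp⟩
  · show ∀ a ∈ [0,1,2,3], ∀ b ∈ g0123 a, b ∈ [0,1,2,3]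
    decide
  · show ∀ a ∈ [0,1,2,3], 2 ≤ (g0123 a).length
    decide

end Pool.Agent.W_MP_c93f48_co
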