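import Pool.Agent.W_MP_c93f48_co.PB
import Pool.Agent.W_MP_c93f48_co.D0123

set_option autoImplicit false

namespace Pool.Agent.W_MP_c93f48_co

/-- the substitution of pairs of binary letters by words of length 47 over `{0,1,2}` -/
def B012 : Bool → Bool → List ℕ
  | false, false =>
    [0, 0, 1, 0, 2, 1, 1, 0, 0, 2, 0, 0, 1, 0, 0, 1, 1, 2, 0, 0, 1, 0, 0, 2, 1, 2, 2, 1, 1, 0,
     2, 1, 2, 1, 0, 0, 1, 0, 0, 2, 0, 0, 1, 0, 2, 0, 1]
  | false, true =>
    [0, 0, 1, 0, 2, 1, 1, 0, 0, 2, 0, 0, 1, 0, 0, 1, 1, 2, 0, 0, 1, 0, 0, 2, 1, 2, 2, 1, 1, 0,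
     2, 1, 2, 1, 0, 0, 1, 0, 0, 2, 0, 0, 1, 0, 2, 0, 0]
  | true, false =>
    [2, 2, 1, 2, 0, 1, 1, 2, 2, 0, 2, 2, 1, 2, 2, 1, 1, 0, 2, 2, 1, 2, 2, 0, 1, 0, 0, 1, 1, 2,
     0, 1, 0, 1, 2, 2, 1, 2, 2, 0, 2, 2, 1, 2, 0, 2, 2]
  | true, true =>
    [2, 2, 1, 2, 0, 1, 1, 2, 2, 0, 2, 2, 1, 2, 2, 1, 1, 0, 2, 2, 1, 2, 2, 0, 1, 0, 0, 1, 1, 2,
     0, 1, 0, 1, 2, 2, 1, 2, 2, 0, 2, 2, 1, 2, 0, 2, 1]

/-- classes of all positions -/
def cl012 : List ℕ :=
  [0, 6, 47, 60, 66, 73, 101, 103, 107, 133, 146, 161, 173, 210, 214, 221, 234, 253, 270, 274,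
   280, 313, 330, 340, 341, 343, 373, 381, 386, 394, 399, 447, 448, 450, 454, 506, 508, 510,
   514, 519, 532, 554, 567, 592, 605, 615, 617, 618, 621, 674, 677, 678, 690, 703, 722, 728,
   735, 738, 741, 763, 776, 781, 789, 795, 808, 821, 841, 845, 848, 858, 871, 881, 896, 909,
   922, 931, 941, 944, 948, 955, 957, 961, 982, 995, 1015, 1048, 1061, 1064, 1068, 1102, 1115,
   1121, 1122, 1124]

/-- starting offsets -/
def s012 : Bool → ℕ × ℕ
  | false => (0, 1)
  | true => (0, 0)

lemma zw_nw' : zg nw = tw := by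
  funext b; simp [zg, nw, tw]

theorem cross012 : Cross tB (zg nw) (fun _ => 0) B012
    (fun x => (((s012 x).1 : ℤ), ((s012 x).2 : ℤ))) (lin 47 0 35 24)
    (clsm (13 : ℕ) (47 : ℕ) 1128) :=
  cross_of_check nw (fun _ => 0) s012 B012 47 0 35 24 13 47 1128 (fun _ => cl012) [0]
    (by norm_num) (by intro b; simp [nw]) (by norm_num) (by decide +kernel) (by decide +kernel)
    (by decide +kernel)
    (by
      intro m _
      exact chkAP_of_mask (m := 313786574041167607699635725668295518211845695907355946967798015097862515835388514203740908096252982259990761619800252891889689711507683903175672551830140590029628778058414157010297644114120860310554564959289407937202191348838228053089267342752592064103876261137116867418956551897705469798680204393357162308942321313912682816718279523958849) (by decide +kernel) (by decide +kernel))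
    (by decide +kernel)

/-- Additive cubes are avoidable over `{0,1,2}` (finite form). -/
theorem unb012 : Unb {s | s ∈ [0, 1, 2]} tw := by
  intro n
  obtain ⟨w, hl, hw⟩ := unbB (n + 2)
  have hm := cross012.preserves w hw
  have hlen := length_pairImg B012 47 (by intro x y; cases x <;> cases y <;> simp [B012]) w
  set W := pairImg B012 w with hW
  have hWn : W ≠ [] := by
    intro h
    rw [h] at hlen
    simp only [List.length_nil] at hlen
    omega
  refine ⟨W.dropLast, ?_, ?_, ?_⟩
  · intro a ha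
    have ha' : a ∈ W := List.mem_of_mem_dropLast ha
    have key : ∀ w : List Bool, ∀ a ∈ pairImg B012 w, a ∈ [0, 1, 2] := by
      intro w
      induction w with
      | nil => intro a ha; simp at ha
      | cons x w ih =>
        cases w with
        | nil => intro a ha; simp at ha
        | cons y w =>
          intro a ha
          rw [pairImg_cons_cons, List.mem_append] at ha
          rcases ha with ha | ha
          · have : ∀ x y : Bool, ∀ a ∈ B012 x y, a ∈ [0, 1, 2] := by decide +kernel
            exact this x y a ha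
          · exact ih a ha
    exact key w a ha'
  · rw [List.length_dropLast]
    omega
  · intro u b1 b2 b3 v heq hb1 ⟨h12, h23⟩
    have hpos : ∀ b : List ℕ, b ≠ [] → wt tw b ≠ 0 := by
      intro b hb h0
      cases b with
      | nil => exact hb rfl
      | cons x b =>
        have := cross012.pos x b
        rw [zw_nw'] at this
        exact this h0
    have hb2 : b2 ≠ [] := by
      rintro rfl
      exact hpos b1 hb1 h12
    have hb3 : b3 ≠ [] := by
      rintro rfl
      exact hpos b2 hb2 h23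
    obtain ⟨a1, c1, rfl⟩ := List.exists_cons_of_ne_nil hb1
    obtain ⟨a2, c2, rfl⟩ := List.exists_cons_of_ne_nil hb2
    obtain ⟨a3, c3, rfl⟩ := List.exists_cons_of_ne_nil hb3
    obtain ⟨a4, v', hv⟩ : ∃ a4 v', v ++ [W.getLast hWn] = a4 :: v' := by
      cases v with
      | nil => exact ⟨_, [], rfl⟩
      | cons x v => exact ⟨x, v ++ [W.getLast hWn], rfl⟩
    have hfull : W = u ++ (a1 :: c1) ++ (a2 :: c2) ++ (a3 :: c3) ++ (a4 :: v') := by
      rw [← List.dropLast_append_getLast hWn, heq, ← hv]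
      simp
    have := hm u a1 c1 a2 c2 a3 c3 a4 v' hfull rfl rfl rfl
    rw [zw_nw'] at this
    exact this ⟨h12, h23⟩

end Pool.Agent.W_MP_c93f48_co
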