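import Pool.Agent.W_MP_c93f48_co.A012

set_option autoImplicit false

namespace Pool.Agent.W_MP_c93f48_co

/-- morphism from `{0,1,2}` to words over `{0,1,3}` -/
def h013 : ℕ → List ℕ
  | 0 => [0, 0, 1, 0, 1, 3]
  | 1 => [1, 1, 0, 1, 3]
  | _ => [0, 3, 1, 3]

theorem strong013 : Strong {s | s ∈ [0,1,2]} tw tw h013 (lin 6 (-1) 5 1)
    (clsm (1 : ℕ) (1 : ℕ) 11) := by
  have := strong_of_check [0,1,2] tw nw h013 6 (-1) 5 1 1 1 11 [0,1,2,4,5,7] [2,4,5,7]
    (by norm_num) (by intro b; simp [nw]) (by norm_num) (by decide) (by decide)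
    (by decide) (by decide +kernel) (by decide +kernel) (by decide +kernel) (by decide)
  rwa [zw_nw] at this

theorem unb013 : Unb {s | s ∈ [0,1,3]} tw := by
  refine Unb.map strong013 ?_ unb012
  show ∀ a ∈ [0,1,2], ∀ b ∈ h013 a, b ∈ [0,1,3]
  decide

end Pool.Agent.W_MP_c93f48_co
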