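import Pool.Agent.W_MP_c93f48_co.Unb

set_option autoImplicit false

namespace Pool.Agent.W_MP_c93f48_co

/-- The raw avoidability statement for an infinite word `x`. -/
def NoCube (x : ℕ → ℕ) : Prop :=
  ∀ i n : ℕ, 0 < n →
    ¬ (∑ k ∈ Finset.range n, x (i + k) = ∑ k ∈ Finset.range n, x (i + n + k) ∧
      ∑ k ∈ Finset.range n, x (i + n + k) = ∑ k ∈ Finset.range n, x (i + 2 * n + k))

theorem exists_noCube (A : Finset ℕ) (H : Unb (↑A : Set ℕ) tw) :
    ∃ x : ℕ → ℕ, (∀ i, x i ∈ A) ∧ NoCube x := by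
  obtain ⟨x, hx, hcf⟩ := exists_infinite A tw H
  exact ⟨x, hx, fun i n hn => no_cube x hcf i n hn⟩

/-- `k ↦ a + d k` preserves cube-freeness. -/
theorem NoCube.affine {x : ℕ → ℕ} (h : NoCube x) (a d : ℕ) (hd : 0 < d) :
    NoCube fun i => a + d * x i := by
  intro i n hn ⟨h1, h2⟩
  simp only [Finset.sum_add_distrib, ← Finset.mul_sum, add_right_inj] at h1 h2
  exact h i n hn ⟨Nat.eq_of_mul_eq_mul_left hd h1, Nat.eq_of_mul_eq_mul_left hd h2⟩

/-- `k ↦ m - d k` preserves cube-freeness as long as it makes sense. -/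
theorem NoCube.reflect {x : ℕ → ℕ} (h : NoCube x) (m d : ℕ) (hd : 0 < d)
    (hm : ∀ i, d * x i ≤ m) : NoCube fun i => m - d * x i := by
  intro i n hn ⟨h1, h2⟩
  have key : ∀ j : ℕ, ∑ k ∈ Finset.range n, (m - d * x (j + k)) +
      d * ∑ k ∈ Finset.range n, x (j + k) = n * m := by
    intro j
    rw [Finset.mul_sum, ← Finset.sum_add_distrib]
    rw [Finset.sum_congr rfl (fun k _ => Nat.sub_add_cancel (hm (j + k)))]
    simp
  beta_reduce at h1 h2
  have k0 := key i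
  have k1 := key (i + n)
  have k2 := key (i + 2 * n)
  refine h i n hn ⟨Nat.eq_of_mul_eq_mul_left hd ?_, Nat.eq_of_mul_eq_mul_left hd ?_⟩
  · omega
  · omega

end Pool.Agent.W_MP_c93f48_co
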