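import Pool.Agent.W_MP_c93f48_co.Affine

set_option autoImplicit false

namespace Pool.Agent.W_MP_c93f48_co

/-- Additive cubes are avoidable over `A`. -/
def Avoid (A : Finset ℕ) : Prop := ∃ x : ℕ → ℕ, (∀ i, x i ∈ A) ∧ NoCube x

lemma Avoid.mono {A B : Finset ℕ} (h : Avoid A) (hAB : A ⊆ B) : Avoid B := by
  obtain ⟨x, hx, hc⟩ := h
  exact ⟨x, fun i => hAB (hx i), hc⟩

/-- the number of `true` bits of `m` in the window `[i, i + n)` -/
def cntb (m i n : ℕ) : ℕ := ∑ k ∈ Finset.range n, (m.testBit (i + k)).toNat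

def cntl (m i : ℕ) : ℕ → ℕ
  | 0 => 0
  | n + 1 => cntl m i n + (m.testBit (i + n)).toNat

lemma cntl_eq (m i n : ℕ) : cntl m i n = cntb m i n := by
  induction n with
  | zero => simp [cntl, cntb]
  | succ n ih => rw [cntl, ih, cntb, cntb, Finset.sum_range_succ]

/-- every binary word of length `10` contains an abelian cube -/
def bin10 (m : ℕ) : Bool :=
  (List.range 10).any fun i => (List.range 4).any fun n =>
    decide (0 < n) && (decide (i + 3 * n ≤ 10) &&
      (Nat.beq (cntl m i n) (cntl m (i + n) n) &&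
      Nat.beq (cntl m (i + n) n) (cntl m (i + 2 * n) n)))

lemma bin10_all : (List.range 1024).all bin10 = true := by decide +kernel

lemma bin10_spec (m : ℕ) (hm : m < 1024) : ∃ i n, 0 < n ∧ i + 3 * n ≤ 10 ∧
    cntb m i n = cntb m (i + n) n ∧ cntb m (i + n) n = cntb m (i + 2 * n) n := by
  have h := List.all_eq_true.1 bin10_all m (List.mem_range.2 hm)
  rw [bin10, List.any_eq_true] at h
  obtain ⟨i, _, h⟩ := h
  rw [List.any_eq_true] at h
  obtain ⟨n, _, h⟩ := h
  simp only [Bool.and_eq_true, decide_eq_true_eq] at h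
  obtain ⟨h1, h2, h3, h4⟩ := h
  refine ⟨i, n, h1, h2, ?_, ?_⟩
  · have := Nat.eq_of_beq_eq_true h3
    rwa [cntl_eq, cntl_eq] at this
  · have := Nat.eq_of_beq_eq_true h4
    rwa [cntl_eq, cntl_eq] at this

lemma not_noCube_two (a b : ℕ) (x : ℕ → ℕ) (hx : ∀ i, x i = a ∨ x i = b) : ¬ NoCube x := by
  intro hc
  classical
  let v : Fin 10 → Bool := fun i => decide (x i = b)
  let m := Nat.ofBits v
  have hm : m < 1024 := by
    have := Nat.ofBits_lt_two_pow v
    simpa using this
  have hv : ∀ j, j < 10 → m.testBit j = decide (x j = b) := by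
    intro j hj
    have := Nat.testBit_ofBits_lt v j hj
    simpa [v] using this
  obtain ⟨i, n, hn, hin, h1, h2⟩ := bin10_spec m hm
  have key : ∀ s, s + n ≤ 10 → ((∑ k ∈ Finset.range n, x (s + k) : ℕ) : ℤ) =
      n * a + (b - a) * (cntb m s n : ℕ) := by
    intro s hs
    rw [cntb]
    push_cast
    rw [Finset.mul_sum]
    have : (n : ℤ) * a = ∑ _k ∈ Finset.range n, (a : ℤ) := by simp
    rw [this, ← Finset.sum_add_distrib]
    apply Finset.sum_congr rfl
    intro k hk
    rw [Finset.mem_range] at hk
    rw [hv (s + k) (by omega)]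
    by_cases hb : x (s + k) = b
    · simp [hb]
    · have ha := (hx (s + k)).resolve_right hb
      have hab : a ≠ b := fun h => hb (ha.trans h)
      simp [ha, hab]
  have k0 := key i (by omega)
  have k1 := key (i + n) (by omega)
  have k2 := key (i + 2 * n) (by omega)
  refine hc i n hn ⟨?_, ?_⟩
  · have : ((∑ k ∈ Finset.range n, x (i + k) : ℕ) : ℤ) =
        ((∑ k ∈ Finset.range n, x (i + n + k) : ℕ) : ℤ) := by rw [k0, k1, h1]
    exact_mod_cast this
  · have : ((∑ k ∈ Finset.range n, x (i + n + k) : ℕ) : ℤ) =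
        ((∑ k ∈ Finset.range n, x (i + 2 * n + k) : ℕ) : ℤ) := by rw [k1, k2, h2]
    exact_mod_cast this

lemma not_avoid_of_card (A : Finset ℕ) (hA : A.card ≤ 2) : ¬ Avoid A := by
  rintro ⟨x, hx, hc⟩
  have : A.card = 0 ∨ A.card = 1 ∨ A.card = 2 := by omega
  rcases this with h | h | h
  · rw [Finset.card_eq_zero] at h
    rw [h] at hx
    exact absurd (hx 0) (Finset.notMem_empty _)
  · obtain ⟨a, rfl⟩ := Finset.card_eq_one.1 h
    exact not_noCube_two a a x (fun i => by have := hx i; simp at this; simp [this]) hc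
  · obtain ⟨a, b, _, rfl⟩ := Finset.card_eq_two.1 h
    exact not_noCube_two a b x (fun i => by have := hx i; simpa using this) hc

/-- The normalised statement implies avoidability over all three element sets. -/
lemma avoid_triple
    (H : ∀ i j : ℕ, 0 < i → 2 * i ≤ j → Nat.Coprime i j → Avoid {0, i, j})
    (p q r : ℕ) (hpq : p < q) (hqr : q < r) : Avoid {p, q, r} := by
  obtain ⟨g, hg⟩ : ∃ g, g = Nat.gcd (q - p) (r - p) := ⟨_, rfl⟩
  have hgpos : 0 < g := by
    rw [hg]; exact Nat.gcd_pos_of_pos_left _ (by omega)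
  obtain ⟨i, hi⟩ : g ∣ q - p := hg ▸ Nat.gcd_dvd_left _ _
  obtain ⟨j, hj⟩ : g ∣ r - p := hg ▸ Nat.gcd_dvd_right _ _
  have hcop : Nat.Coprime i j := by
    have : g = g * Nat.gcd i j := by
      rw [← Nat.gcd_mul_left, ← hi, ← hj]; exact hg
    exact Nat.eq_of_mul_eq_mul_left hgpos (by rw [mul_one]; exact this.symm)
  have hipos : 0 < i := by
    rcases Nat.eq_zero_or_pos i with h | h
    · rw [h] at hi; omega
    · exact h
  have hij : i < j := by
    by_contra hle
    have := Nat.mul_le_mul_left g (not_lt.1 hle)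
    omega
  by_cases hc : 2 * i ≤ j
  · obtain ⟨x, hx, hcx⟩ := H i j hipos hc hcop
    refine ⟨fun k => p + g * x k, fun k => ?_, hcx.affine p g hgpos⟩
    have := hx k
    simp only [Finset.mem_insert, Finset.mem_singleton] at this ⊢
    rcases this with h | h | h
    · left; rw [h]; simp
    · right; left; rw [h, ← hi]; omega
    · right; right; rw [h, ← hj]; omega
  · have hcop' : Nat.Coprime (j - i) j := by
      have h1 : Nat.Coprime i (j - i) := (Nat.coprime_sub_self_right hij.le).2 hcop
      have h2 : Nat.Coprime (j - i) (j - i + i) := by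
        rw [Nat.coprime_self_add_right]; exact h1.symm
      rwa [Nat.sub_add_cancel hij.le] at h2
    obtain ⟨x, hx, hcx⟩ := H (j - i) j (by omega) (by omega) hcop'
    have hm : ∀ k, g * x k ≤ r := by
      intro k
      have := hx k
      simp only [Finset.mem_insert, Finset.mem_singleton] at this
      rcases this with h | h | h
      · rw [h]; simp
      · rw [h, Nat.mul_sub]; omega
      · rw [h]; omega
    refine ⟨fun k => r - g * x k, fun k => ?_, hcx.reflect r g hgpos hm⟩
    have := hx k
    simp only [Finset.mem_insert, Finset.mem_singleton] at this ⊢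
    rcases this with h | h | h
    · right; right; rw [h]; simp
    · right; left; rw [h, Nat.mul_sub]; omega
    · left; rw [h, ← hj]; omega

/-- Assembly of the classification. -/
theorem classification
    (H : ∀ i j : ℕ, 0 < i → 2 * i ≤ j → Nat.Coprime i j → Avoid {0, i, j})
    (A : Finset ℕ) : Avoid A ↔ 3 ≤ A.card := by
  constructor
  · intro h
    by_contra hlt
    exact not_avoid_of_card A (by omega) h
  · intro h
    obtain ⟨a, ha, b, hb, c, hc, hab, hac, hbc⟩ := Finset.two_lt_card.1 (by omega : 2 < A.card)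
    have T := avoid_triple H
    have fin : ∀ p q r, p ∈ A → q ∈ A → r ∈ A → p < q → q < r → Avoid A := by
      intro p q r hp hq hr h1 h2
      refine (T p q r h1 h2).mono ?_
      intro z hz
      simp only [Finset.mem_insert, Finset.mem_singleton] at hz
      rcases hz with rfl | rfl | rfl <;> assumption
    rcases lt_or_gt_of_ne hab with h1 | h1 <;> rcases lt_or_gt_of_ne hac with h2 | h2 <;>
      rcases lt_or_gt_of_ne hbc with h3 | h3
    · exact fin a b c ha hb hc h1 h3
    · exact fin a c b ha hc hb h2 h3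
    · omega
    · exact fin c a b hc ha hb h2 h1
    · exact fin b a c hb ha hc h1 h2
    · omega
    · exact fin b c a hb hc ha h3 h2
    · exact fin c b a hc hb ha h3 h1

/-- Reduction of the normalised three letter alphabets to three small ones and the
alphabets `{0, i, j}` with `j ≥ 5`. -/
theorem normalised
    (h12 : Avoid {0, 1, 2}) (h13 : Avoid {0, 1, 3}) (h14 : Avoid {0, 1, 4})
    (hU : ∀ i j : ℕ, 0 < i → i < j → 5 ≤ j → Nat.Coprime i j → Avoid {0, i, j})
    (i j : ℕ) (hi : 0 < i) (hij : 2 * i ≤ j) (hc : Nat.Coprime i j) : Avoid {0, i, j} := by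
  by_cases hj : 5 ≤ j
  · exact hU i j hi (by omega) hj hc
  · have hj' : j < 5 := by omega
    have hi' : i < 3 := by omega
    interval_cases j <;> interval_cases i <;>
      first
        | omega
        | assumption
        | (exfalso; revert hc; decide)

end Pool.Agent.W_MP_c93f48_co
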