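import Mathlib

set_option autoImplicit false

namespace Pool.Agent.W_MP_c93f48_co

variable {α β M M' G : Type*}

/-- Total weight of a word. -/
def wt [AddCommMonoid M] (t : α → M) (w : List α) : M := (w.map t).sum

/-- `w` has no three consecutive blocks of the same weight, the first one nonempty. -/
def CF [AddCommMonoid M] (t : α → M) (w : List α) : Prop :=
  ∀ u b1 b2 b3 v, w = u ++ b1 ++ b2 ++ b3 ++ v → b1 ≠ [] →
    ¬ (wt t b1 = wt t b2 ∧ wt t b2 = wt t b3)

section lemmas

@[simp] lemma wt_nil [AddCommMonoid M] (t : α → M) : wt t ([] : List α) = 0 := rfl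

@[simp] lemma wt_cons [AddCommMonoid M] (t : α → M) (a : α) (w : List α) :
    wt t (a :: w) = t a + wt t w := by simp [wt]

@[simp] lemma wt_append [AddCommMonoid M] (t : α → M) (w w' : List α) :
    wt t (w ++ w') = wt t w + wt t w' := by simp [wt]

lemma CF.pre [AddCommMonoid M] {t : α → M} {w w' : List α} (h : CF t w) (hp : w' <+: w) :
    CF t w' := by
  obtain ⟨s, rfl⟩ := hp
  intro u b1 b2 b3 v hw hb
  exact h u b1 b2 b3 (v ++ s) (by rw [hw]; simp) hb

lemma CF.fac [AddCommMonoid M] {t : α → M} {w w' : List α} (h : CF t w) (hp : w' <:+: w) :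
    CF t w' := by
  obtain ⟨s, s', rfl⟩ := hp
  intro u b1 b2 b3 v hw hb
  exact h (s ++ u) b1 b2 b3 (v ++ s') (by rw [hw]; simp) hb

lemma CF.singleton [AddCommMonoid M] {t : α → M} (ht : ∀ b : List α, b ≠ [] → wt t b ≠ 0) (a : α) :
    CF t [a] := by
  intro u b1 b2 b3 v hw hb ⟨h1, h2⟩
  have hb2 : b2 ≠ [] := by
    rintro rfl
    exact ht b1 hb h1
  have hl := congrArg List.length hw
  simp only [List.length_append, List.length_singleton] at hl
  have := List.length_pos_of_ne_nil hb
  have := List.length_pos_of_ne_nil hb2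
  omega

/-- Every prefix of `h(w)` splits at a letter of `w`. -/
lemma split_prefix (h : α → List β) :
    ∀ (w : List α), (∀ a ∈ w, h a ≠ []) → ∀ P, P <+: w.flatMap h →
      ∃ m, m ≤ w.length ∧ ∃ r, P = (w.take m).flatMap h ++ r ∧
        ((m = w.length ∧ r = []) ∨ ∃ hm : m < w.length, r <+: h w[m] ∧ r ≠ h w[m]) := by
  intro w
  induction w with
  | nil =>
    intro _ P hP
    refine ⟨0, by simp, [], ?_, Or.inl ⟨by simp, rfl⟩⟩
    simpa using hP
  | cons a w ih =>
    intro hne P hP
    rw [List.flatMap_cons] at hP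
    by_cases hlt : P.length < (h a).length
    · refine ⟨0, by simp, P, by simp, Or.inr ⟨by simp, ?_⟩⟩
      have hp : P <+: h a := by
        refine List.prefix_of_prefix_length_le hP (List.prefix_append _ _) hlt.le
      refine ⟨by simpa using hp, ?_⟩
      intro he
      simp at he
      rw [he] at hlt
      exact lt_irrefl _ hlt
    · push Not at hlt
      have hp : h a <+: P :=
        List.prefix_of_prefix_length_le (List.prefix_append _ _) hP hlt
      obtain ⟨Q, rfl⟩ := hp
      have hQ : Q <+: w.flatMap h := by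
        exact (List.prefix_append_right_inj _).1 hP
      obtain ⟨m, hm, r, hr, hcase⟩ := ih (fun b hb => hne b (List.mem_cons_of_mem _ hb)) Q hQ
      refine ⟨m + 1, by simpa using hm, r, ?_, ?_⟩
      · rw [hr]; simp
      · rcases hcase with ⟨h1, h2⟩ | ⟨h1, h2, h3⟩
        · exact Or.inl ⟨by simp [h1], h2⟩
        · exact Or.inr ⟨by simpa using h1, by simpa using h2, by simpa using h3⟩

end lemmas

/-- The data of a strong morphism: `h` maps letters of `S` to nonempty words, weights are mapped by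
an injective homomorphism `N`, and `cls` is a homomorphism killing all `wt (h a)`. -/
structure Strong [AddCommGroup M] [AddCommGroup M'] [AddCommGroup G]
    (S : Set α) (t : α → M) (u : β → M') (h : α → List β) (N : M →+ M') (cls : M' →+ G) : Prop where
  pos : ∀ b : List β, b ≠ [] → wt u b ≠ 0
  ne : ∀ a ∈ S, h a ≠ []
  inj : Function.Injective N
  wth : ∀ a ∈ S, wt u (h a) = N (t a)
  clsh : ∀ a ∈ S, cls (wt u (h a)) = 0
  ap : ∀ a0 ∈ S, ∀ a1 ∈ S, ∀ a2 ∈ S, ∀ a3 ∈ S, ∀ r0 r1 r2 r3 : List β,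
    (r0 <+: h a0 ∧ r0 ≠ h a0) → (r1 <+: h a1 ∧ r1 ≠ h a1) →
    (r2 <+: h a2 ∧ r2 ≠ h a2) → (r3 <+: h a3 ∧ r3 ≠ h a3) →
    cls (wt u r1) - cls (wt u r0) = cls (wt u r2) - cls (wt u r1) →
    cls (wt u r2) - cls (wt u r1) = cls (wt u r3) - cls (wt u r2) →
    cls (wt u r0) = cls (wt u r1)
  typ : ∀ g : G,
    (∀ a ∈ S, ∀ b ∈ S, ∀ r r' : List β, (r <+: h a ∧ r ≠ h a) → (r' <+: h b ∧ r' ≠ h b) →
      cls (wt u r) = g → cls (wt u r') = g → wt u r = wt u r') ∨
    (g ≠ 0 ∧ ∀ a ∈ S, ∀ b ∈ S, ∀ r r' : List β, (r <+: h a ∧ r ≠ h a) → (r' <+: h b ∧ r' ≠ h b) →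
      cls (wt u r) = g → cls (wt u r') = g →
      wt u (h a) - wt u r = wt u (h b) - wt u r')

section main

variable [AddCommGroup M] [AddCommGroup M'] [AddCommGroup G]
variable {S : Set α} {t : α → M} {u : β → M'} {h : α → List β} {N : M →+ M'} {cls : M' →+ G}

lemma Strong.wt_flatMap (hs : Strong S t u h N cls) :
    ∀ w : List α, (∀ a ∈ w, a ∈ S) → wt u (w.flatMap h) = N (wt t w) := by
  intro w
  induction w with
  | nil => intro _; simp
  | cons a w ih =>
    intro hw
    rw [List.flatMap_cons, wt_append, wt_cons, map_add, hs.wth a (hw a (by simp)),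
      ih (fun b hb => hw b (List.mem_cons_of_mem _ hb))]

lemma Strong.cls_flatMap (hs : Strong S t u h N cls) :
    ∀ w : List α, (∀ a ∈ w, a ∈ S) → cls (wt u (w.flatMap h)) = 0 := by
  intro w
  induction w with
  | nil => intro _; simp
  | cons a w ih =>
    intro hw
    rw [List.flatMap_cons, wt_append, map_add, hs.clsh a (hw a (by simp)),
      ih (fun b hb => hw b (List.mem_cons_of_mem _ hb)), add_zero]

lemma aux1 {A : Type*} [AddCommGroup A] {x y r b : A} (e : x + r + b = y + r) : y - x = b := by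
  rw [← add_sub_add_right_eq_sub y x r, ← e]; abel

lemma aux2 {A : Type*} [AddCommGroup A] {x y r s b h k : A} (e : x + r + b = y + s)
    (q : h - r = k - s) : (y + k) - (x + h) = b := by
  have h1 : b = y + s - (x + r) := by rw [← e]; abel
  have h2 : k = h - r + s := by rw [q]; abel
  rw [h1, h2]; abel

/-- Core combinatorial step: monotone positions with equal weight increments give a cube. -/
lemma cube_of_positions (w : List α) (hcf : CF t w) (k0 k1 k2 k3 : ℕ)
    (h01 : k0 ≤ k1) (h12 : k1 ≤ k2) (h23 : k2 ≤ k3) (h3 : k3 ≤ w.length)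
    (e1 : wt t (w.take k1) - wt t (w.take k0) = wt t (w.take k2) - wt t (w.take k1))
    (e2 : wt t (w.take k2) - wt t (w.take k1) = wt t (w.take k3) - wt t (w.take k2)) :
    wt t (w.take k1) - wt t (w.take k0) = 0 := by
  by_contra hne
  have key : ∀ i j, i ≤ j → w.take j = w.take i ++ (w.drop i).take (j - i) := by
    intro i j hij
    conv_lhs => rw [← List.take_append_drop i w]
    rw [List.take_append]
    by_cases hi : i ≤ w.length
    · have hl : (List.take i w).length = i := by simp [hi]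
      rw [hl, List.take_take, min_eq_right hij]
    · push Not at hi
      have : w.drop i = [] := List.drop_eq_nil_of_le hi.le
      rw [this]
      simp [List.take_of_length_le hi.le, List.take_of_length_le (hi.le.trans hij)]
  set b1 := (w.drop k0).take (k1 - k0) with hb1
  set b2 := (w.drop k1).take (k2 - k1) with hb2
  set b3 := (w.drop k2).take (k3 - k2) with hb3
  have t1 := key k0 k1 h01
  have t2 := key k1 k2 h12
  have t3 := key k2 k3 h23
  have d1 : wt t (w.take k1) - wt t (w.take k0) = wt t b1 := by rw [t1, wt_append]; abel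
  have d2 : wt t (w.take k2) - wt t (w.take k1) = wt t b2 := by rw [t2, wt_append]; abel
  have d3 : wt t (w.take k3) - wt t (w.take k2) = wt t b3 := by rw [t3, wt_append]; abel
  have hw : w = w.take k0 ++ b1 ++ b2 ++ b3 ++ w.drop k3 := by
    rw [← t1, ← t2, ← t3, List.take_append_drop]
  refine hcf _ _ _ _ _ hw ?_ ⟨?_, ?_⟩
  · intro hb
    rw [d1, hb] at hne
    exact hne rfl
  · rw [← d1, ← d2, e1]
  · rw [← d2, ← d3, e2]

theorem Strong.preserves (hs : Strong S t u h N cls) (w : List α) (hw : ∀ a ∈ w, a ∈ S)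
    (hcf : CF t w) : CF u (w.flatMap h) := by
  intro p b1 b2 b3 q heq hb1 ⟨h12, h23⟩
  -- the four prefixes
  have hne : ∀ a ∈ w, h a ≠ [] := fun a ha => hs.ne a (hw a ha)
  have hP0 : p <+: w.flatMap h := ⟨b1 ++ b2 ++ b3 ++ q, by rw [heq]; simp⟩
  have hP1 : p ++ b1 <+: w.flatMap h := ⟨b2 ++ b3 ++ q, by rw [heq]; simp⟩
  have hP2 : p ++ b1 ++ b2 <+: w.flatMap h := ⟨b3 ++ q, by rw [heq]; simp⟩
  have hP3 : p ++ b1 ++ b2 ++ b3 <+: w.flatMap h := ⟨q, by rw [heq]⟩
  have hwne : w ≠ [] := by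
    rintro rfl
    have hl := congrArg List.length heq
    simp only [List.flatMap_nil, List.length_append, List.length_nil] at hl
    have := List.length_pos_of_ne_nil hb1
    omega
  obtain ⟨c, hc⟩ := List.exists_mem_of_ne_nil w hwne
  have hcS := hw c hc
  -- extended splitting
  have split : ∀ P, P <+: w.flatMap h → ∃ m, m ≤ w.length ∧ ∃ r a, a ∈ S ∧ (r <+: h a ∧ r ≠ h a) ∧
      P = (w.take m).flatMap h ++ r ∧
      ((m = w.length ∧ r = []) ∨ ∃ hm : m < w.length, w[m] = a) := by
    intro P hP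
    obtain ⟨m, hm, r, hr, hcase⟩ := split_prefix h w hne P hP
    rcases hcase with ⟨h1, h2⟩ | ⟨h1, h2, h3⟩
    · refine ⟨m, hm, r, c, hcS, ⟨by rw [h2]; exact List.nil_prefix, by rw [h2]; exact (hs.ne c hcS).symm⟩,
        hr, Or.inl ⟨h1, h2⟩⟩
    · exact ⟨m, hm, r, w[m], hw _ (List.getElem_mem h1), ⟨h2, h3⟩, hr, Or.inr ⟨h1, rfl⟩⟩
  obtain ⟨m0, hm0, r0, a0, ha0, hr0, e0, c0⟩ := split _ hP0
  obtain ⟨m1, hm1, r1, a1, ha1, hr1, e1, c1⟩ := split _ hP1
  obtain ⟨m2, hm2, r2, a2, ha2, hr2, e2, c2⟩ := split _ hP2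
  obtain ⟨m3, hm3, r3, a3, ha3, hr3, e3, c3⟩ := split _ hP3
  have htk : ∀ m, ∀ a ∈ w.take m, a ∈ S := fun m a ha => hw a (List.mem_of_mem_take ha)
  -- monotonicity
  have lenmono : ∀ i j, i ≤ j → ((w.take i).flatMap h).length ≤ ((w.take j).flatMap h).length := by
    intro i j hij
    have : w.take i <+: w.take j := by
      rw [show w.take i = (w.take j).take i by rw [List.take_take, min_eq_left hij]]
      exact List.take_prefix _ _
    obtain ⟨s, hs'⟩ := this
    rw [← hs', List.flatMap_append, List.length_append]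
    omega
  have mono : ∀ (P P' : List β) (m m' : ℕ) (r r' : List β) (a' : α), P.length ≤ P'.length →
      m ≤ w.length →
      P = (w.take m).flatMap h ++ r → P' = (w.take m').flatMap h ++ r' →
      (r' <+: h a' ∧ r' ≠ h a') →
      ((m' = w.length ∧ r' = []) ∨ ∃ hm : m' < w.length, w[m'] = a') → m ≤ m' := by
    intro P P' m m' r r' a' hlen hm hP hP' hr' hc'
    by_contra hlt
    push Not at hlt
    rcases hc' with ⟨h1, _⟩ | ⟨h1, h2⟩
    · omega
    · have hr'l : r'.length < (h a').length := by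
        rcases lt_or_eq_of_le hr'.1.length_le with hlt' | heq'
        · exact hlt'
        · exact absurd (hr'.1.eq_of_length heq') hr'.2
      have e1 : ((w.take (m' + 1)).flatMap h).length = ((w.take m').flatMap h).length + (h a').length := by
        rw [List.take_succ_eq_append_getElem h1, List.flatMap_append, List.length_append, h2]
        simp
      have e2 := lenmono (m' + 1) m hlt
      have e3 : P.length = ((w.take m).flatMap h).length + r.length := by rw [hP]; simp
      have e4 : P'.length = ((w.take m').flatMap h).length + r'.length := by rw [hP']; simp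
      omega
  have m01 : m0 ≤ m1 := mono _ _ m0 m1 r0 r1 a1 (by simp) hm0 e0 e1 hr1 c1
  have m12 : m1 ≤ m2 := mono _ _ m1 m2 r1 r2 a2 (by simp) hm1 e1 e2 hr2 c2
  have m23 : m2 ≤ m3 := mono _ _ m2 m3 r2 r3 a3 (by simp) hm2 e2 e3 hr3 c3
  -- weights
  have w0 : wt u p = N (wt t (w.take m0)) + wt u r0 := by
    rw [e0, wt_append, hs.wt_flatMap _ (htk m0)]
  have w1 : wt u p + wt u b1 = N (wt t (w.take m1)) + wt u r1 := by
    rw [← wt_append, e1, wt_append, hs.wt_flatMap _ (htk m1)]
  have w2 : wt u p + wt u b1 + wt u b1 = N (wt t (w.take m2)) + wt u r2 := by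
    have : wt u (p ++ b1 ++ b2) = N (wt t (w.take m2)) + wt u r2 := by
      rw [e2, wt_append, hs.wt_flatMap _ (htk m2)]
    rw [← this, wt_append, wt_append, h12]
  have w3 : wt u p + wt u b1 + wt u b1 + wt u b1 = N (wt t (w.take m3)) + wt u r3 := by
    have : wt u (p ++ b1 ++ b2 ++ b3) = N (wt t (w.take m3)) + wt u r3 := by
      rw [e3, wt_append, hs.wt_flatMap _ (htk m3)]
    rw [← this, wt_append, wt_append, wt_append, ← h23, ← h12]
  -- classes
  have clN : ∀ m, cls (N (wt t (w.take m))) = 0 := by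
    intro m
    rw [← hs.wt_flatMap _ (htk m)]
    exact hs.cls_flatMap _ (htk m)
  have g0 : cls (wt u p) = cls (wt u r0) := by rw [w0, map_add, clN, zero_add]
  have g1 : cls (wt u p) + cls (wt u b1) = cls (wt u r1) := by
    rw [← map_add, w1, map_add, clN, zero_add]
  have g2 : cls (wt u p) + cls (wt u b1) + cls (wt u b1) = cls (wt u r2) := by
    rw [← map_add, ← map_add, w2, map_add, clN, zero_add]
  have g3 : cls (wt u p) + cls (wt u b1) + cls (wt u b1) + cls (wt u b1) = cls (wt u r3) := by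
    rw [← map_add, ← map_add, ← map_add, w3, map_add, clN, zero_add]
  have hcl := hs.ap a0 ha0 a1 ha1 a2 ha2 a3 ha3 r0 r1 r2 r3 hr0 hr1 hr2 hr3
    (by rw [← g0, ← g1, ← g2]; abel) (by rw [← g1, ← g2, ← g3]; abel)
  have hb : cls (wt u b1) = 0 := by
    rw [← g0, ← g1] at hcl
    simpa using hcl.symm
  have hg0 : cls (wt u r0) = cls (wt u p) := g0.symm
  have hg1 : cls (wt u r1) = cls (wt u p) := by rw [← g1, hb, add_zero]
  have hg2 : cls (wt u r2) = cls (wt u p) := by rw [← g2, hb, add_zero, add_zero]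
  have hg3 : cls (wt u r3) = cls (wt u p) := by rw [← g3, hb, add_zero, add_zero, add_zero]
  have hpos := hs.pos b1 hb1
  rcases hs.typ (cls (wt u p)) with hpre | ⟨hg, hsuf⟩
  · -- prefix type
    have q1 := hpre a0 ha0 a1 ha1 r0 r1 hr0 hr1 hg0 hg1
    have q2 := hpre a0 ha0 a2 ha2 r0 r2 hr0 hr2 hg0 hg2
    have q3 := hpre a0 ha0 a3 ha3 r0 r3 hr0 hr3 hg0 hg3
    have x1 : N (wt t (w.take m1) - wt t (w.take m0)) = wt u b1 := by
      rw [map_sub]
      have := w1; rw [w0, q1] at this
      exact aux1 this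
    have x2 : N (wt t (w.take m2) - wt t (w.take m1)) = wt u b1 := by
      rw [map_sub]
      have := w2; rw [w1, ← q1, ← q2] at this
      exact aux1 this
    have x3 : N (wt t (w.take m3) - wt t (w.take m2)) = wt u b1 := by
      rw [map_sub]
      have := w3; rw [w2, ← q2, ← q3] at this
      exact aux1 this
    have z := cube_of_positions w hcf m0 m1 m2 m3 m01 m12 m23 hm3
      (hs.inj (x1.trans x2.symm)) (hs.inj (x2.trans x3.symm))
    rw [z, map_zero] at x1
    exact hpos x1.symm
  · -- suffix type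
    have nt : ∀ (m : ℕ) (r : List β) (a : α), cls (wt u r) = cls (wt u p) →
        ((m = w.length ∧ r = []) ∨ ∃ hm : m < w.length, w[m] = a) → ∃ hm : m < w.length, w[m] = a := by
      intro m r a hr hc
      rcases hc with ⟨_, h2⟩ | h
      · exfalso; apply hg; rw [← hr, h2]; simp
      · exact h
    obtain ⟨l0, f0⟩ := nt m0 r0 a0 hg0 c0
    obtain ⟨l1, f1⟩ := nt m1 r1 a1 hg1 c1
    obtain ⟨l2, f2⟩ := nt m2 r2 a2 hg2 c2
    obtain ⟨l3, f3⟩ := nt m3 r3 a3 hg3 c3
    have nx : ∀ (m : ℕ) (a : α) (_ : a ∈ S), (∃ hm : m < w.length, w[m] = a) →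
        N (wt t (w.take (m + 1))) = N (wt t (w.take m)) + wt u (h a) := by
      intro m a haS ⟨hm, hma⟩
      rw [List.take_succ_eq_append_getElem hm, wt_append, map_add, hma, hs.wth a haS]
      simp
    have n0 := nx m0 a0 ha0 ⟨l0, f0⟩
    have n1 := nx m1 a1 ha1 ⟨l1, f1⟩
    have n2 := nx m2 a2 ha2 ⟨l2, f2⟩
    have n3 := nx m3 a3 ha3 ⟨l3, f3⟩
    have q1 := hsuf a0 ha0 a1 ha1 r0 r1 hr0 hr1 hg0 hg1
    have q2 := hsuf a0 ha0 a2 ha2 r0 r2 hr0 hr2 hg0 hg2
    have q3 := hsuf a0 ha0 a3 ha3 r0 r3 hr0 hr3 hg0 hg3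
    have x1 : N (wt t (w.take (m1 + 1)) - wt t (w.take (m0 + 1))) = wt u b1 := by
      rw [map_sub, n1, n0]
      have e := w1; rw [w0] at e
      exact aux2 e q1
    have x2 : N (wt t (w.take (m2 + 1)) - wt t (w.take (m1 + 1))) = wt u b1 := by
      rw [map_sub, n2, n1]
      have e := w2; rw [w1] at e
      exact aux2 e (q1.symm.trans q2)
    have x3 : N (wt t (w.take (m3 + 1)) - wt t (w.take (m2 + 1))) = wt u b1 := by
      rw [map_sub, n3, n2]
      have e := w3; rw [w2] at e
      exact aux2 e (q2.symm.trans q3)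
    have z := cube_of_positions w hcf (m0 + 1) (m1 + 1) (m2 + 1) (m3 + 1)
      (by omega) (by omega) (by omega) (by omega)
      (hs.inj (x1.trans x2.symm)) (hs.inj (x2.trans x3.symm))
    rw [z, map_zero] at x1
    exact hpos x1.symm

end main

end Pool.Agent.W_MP_c93f48_co
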