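import Pool.Agent.W_MP_c93f48_co.Basic

set_option autoImplicit false

namespace Pool.Agent.W_MP_c93f48_co

/-- integer linear map `(x, y) ↦ (a x + b y, c x + d y)` -/
def lin (a b c d : ℤ) : ℤ × ℤ →+ ℤ × ℤ where
  toFun p := (a * p.1 + b * p.2, c * p.1 + d * p.2)
  map_zero' := by simp
  map_add' p q := by ext <;> simp <;> ring

lemma lin_inj {a b c d : ℤ} (h : a * d - b * c ≠ 0) : Function.Injective (lin a b c d) := by
  rw [injective_iff_map_eq_zero]
  rintro ⟨x, y⟩ hxy
  have h1 : a * x + b * y = 0 := congrArg Prod.fst hxy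
  have h2 : c * x + d * y = 0 := congrArg Prod.snd hxy
  have hx : (a * d - b * c) * x = 0 := by linear_combination d * h1 - b * h2
  have hy : (a * d - b * c) * y = 0 := by linear_combination a * h2 - c * h1
  have hx' := (mul_eq_zero.1 hx).resolve_left h
  have hy' := (mul_eq_zero.1 hy).resolve_left h
  simp [hx', hy']

/-- class map -/
def clsm (al be : ℤ) (D : ℕ) : ℤ × ℤ →+ ZMod D where
  toFun p := ((al * p.1 + be * p.2 : ℤ) : ZMod D)
  map_zero' := by simp
  map_add' p q := by simp only [Prod.fst_add, Prod.snd_add]; push_cast; ring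

/-- cast a natural weight to an integer weight -/
def zw (u : ℕ → ℕ × ℕ) (b : ℕ) : ℤ × ℤ := (((u b).1 : ℤ), ((u b).2 : ℤ))

/-- weights of the proper prefixes of a word, starting from an accumulator -/
def prefW (u : ℕ → ℕ × ℕ) : ℕ → ℕ → List ℕ → List (ℕ × ℕ)
  | _, _, [] => []
  | x, y, b :: w => (x, y) :: prefW u (x + (u b).1) (y + (u b).2) w

/-- natural total weight -/
def nwt (u : ℕ → ℕ × ℕ) (w : List ℕ) : ℕ × ℕ := ((w.map fun b => (u b).1).sum, (w.map fun b => (u b).2).sum)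

lemma wt_zw (u : ℕ → ℕ × ℕ) (w : List ℕ) : wt (zw u) w = (((nwt u w).1 : ℤ), ((nwt u w).2 : ℤ)) := by
  induction w with
  | nil => simp [nwt, Prod.ext_iff]
  | cons b w ih =>
    rw [wt_cons, ih]
    ext <;> simp [nwt, zw]

lemma mem_prefW (u : ℕ → ℕ × ℕ) : ∀ (w r : List ℕ) (x y : ℕ), r <+: w → r ≠ w →
    (x + (nwt u r).1, y + (nwt u r).2) ∈ prefW u x y w := by
  intro w
  induction w with
  | nil =>
    intro r x y h1 h2
    exact absurd (List.prefix_nil.1 h1) h2
  | cons b w ih =>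
    intro r x y h1 h2
    cases r with
    | nil => simp [prefW, nwt]
    | cons c r =>
      rw [List.cons_prefix_cons] at h1
      obtain ⟨rfl, h1⟩ := h1
      have h3 : r ≠ w := fun h => h2 (by rw [h])
      have := ih r (x + (u c).1) (y + (u c).2) h1 h3
      simp only [prefW, List.mem_cons]
      right
      convert this using 2
      · simp [nwt]; ring
      · simp [nwt]; ring

/-- entries `(class, prefix weight, suffix weight)` for one letter -/
def entries (u : ℕ → ℕ × ℕ) (al be D : ℕ) (w : List ℕ) : List (ℕ × (ℕ × ℕ) × (ℕ × ℕ)) :=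
  (prefW u 0 0 w).map fun p =>
    ((al * p.1 + be * p.2) % D, p, ((nwt u w).1 - p.1, (nwt u w).2 - p.2))

def chkAP (D : ℕ) (A : List ℕ) : Bool :=
  A.all fun a => A.all fun b => a == b ||
    !(A.contains ((2 * b + (D - a)) % D) && A.contains ((3 * b + 2 * (D - a)) % D))

def chkTyp (E : List (ℕ × (ℕ × ℕ) × (ℕ × ℕ))) (suf : List ℕ) : Bool :=
  E.all fun e => E.all fun e' => !(e.1 == e'.1) ||
    (if suf.contains e.1 then e.2.2 == e'.2.2 else e.2.1 == e'.2.1)

lemma chkAP_sound {D : ℕ} {A : List ℕ} (h : chkAP D A = true) {a b c d : ℕ}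
    (ha : a ∈ A) (hb : b ∈ A) (hc : c ∈ A) (hd : d ∈ A) (hA : a < D)
    (hC : c < D) (hDD : d < D)
    (e1 : ((b : ℕ) : ZMod D) - a = (c : ZMod D) - b)
    (e2 : ((c : ℕ) : ZMod D) - b = (d : ZMod D) - c) : a = b := by
  have : NeZero D := ⟨by omega⟩
  rw [chkAP, List.all_eq_true] at h
  have h' := h a ha
  rw [List.all_eq_true] at h'
  have h'' := h' b hb
  rw [Bool.or_eq_true] at h''
  rcases h'' with h'' | h''
  · exact eq_of_beq h''
  · exfalso
    have hc1 : ((2 * b + (D - a) : ℕ) : ZMod D) = (c : ZMod D) := by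
      have : ((D - a : ℕ) : ZMod D) = -(a : ZMod D) := by
        rw [Nat.cast_sub hA.le]; simp
      push_cast
      rw [this]
      linear_combination e1
    have hd1 : ((3 * b + 2 * (D - a) : ℕ) : ZMod D) = (d : ZMod D) := by
      have : ((D - a : ℕ) : ZMod D) = -(a : ZMod D) := by
        rw [Nat.cast_sub hA.le]; simp
      push_cast
      rw [this]
      linear_combination 2 * e1 + e2
    have hc2 : (2 * b + (D - a)) % D = c := by
      have := (ZMod.natCast_eq_natCast_iff' _ _ _).1 hc1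
      rw [this, Nat.mod_eq_of_lt hC]
    have hd2 : (3 * b + 2 * (D - a)) % D = d := by
      have := (ZMod.natCast_eq_natCast_iff' _ _ _).1 hd1
      rw [this, Nat.mod_eq_of_lt hDD]
    rw [hc2, hd2] at h''
    simp [hc, hd] at h''

lemma chkTyp_sound {E : List (ℕ × (ℕ × ℕ) × (ℕ × ℕ))} {suf : List ℕ} (h : chkTyp E suf = true) :
    ∀ e ∈ E, ∀ e' ∈ E, e.1 = e'.1 →
      (e.1 ∈ suf → e.2.2 = e'.2.2) ∧ (e.1 ∉ suf → e.2.1 = e'.2.1) := by
  intro e he e' he' hee
  rw [chkTyp, List.all_eq_true] at h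
  have h' := h e he
  rw [List.all_eq_true] at h'
  have h'' := h' e' he'
  rw [Bool.or_eq_true] at h''
  rcases h'' with h'' | h''
  · simp [hee] at h''
  · constructor
    · intro hs
      simpa [hs] using h''
    · intro hs
      simpa [hs] using h''

theorem strong_of_check (S : List ℕ) (t : ℕ → ℤ × ℤ) (u : ℕ → ℕ × ℕ) (h : ℕ → List ℕ)
    (a b c d : ℤ) (al be D : ℕ) (A suf : List ℕ)
    (hD : 0 < D) (hu : ∀ b, 0 < (u b).1 + (u b).2) (hdet : a * d - b * c ≠ 0)
    (h1 : ∀ s ∈ S, h s ≠ [])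
    (h2 : ∀ s ∈ S, (((nwt u (h s)).1 : ℤ), ((nwt u (h s)).2 : ℤ)) = lin a b c d (t s))
    (h3 : ∀ s ∈ S, (al * (nwt u (h s)).1 + be * (nwt u (h s)).2) % D = 0)
    (h4 : ∀ s ∈ S, ∀ e ∈ entries u al be D (h s), e.1 ∈ A)
    (h5 : chkAP D A = true)
    (h6 : chkTyp (S.flatMap fun s => entries u al be D (h s)) suf = true)
    (h7 : 0 ∉ suf) :
    Strong {s | s ∈ S} t (zw u) h (lin a b c d) (clsm al be D) := by
  have : NeZero D := ⟨by omega⟩
  -- class of a word as a natural number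
  have hcl : ∀ r : List ℕ, clsm al be D (wt (zw u) r) =
      (((al * (nwt u r).1 + be * (nwt u r).2) % D : ℕ) : ZMod D) := by
    intro r
    rw [wt_zw, ZMod.natCast_mod]
    simp [clsm]
  have hent : ∀ s ∈ S, ∀ r : List ℕ, r <+: h s → r ≠ h s →
      ((al * (nwt u r).1 + be * (nwt u r).2) % D, nwt u r,
        ((nwt u (h s)).1 - (nwt u r).1, (nwt u (h s)).2 - (nwt u r).2)) ∈
        entries u al be D (h s) := by
    intro s hs r hr hne
    have := mem_prefW u (h s) r 0 0 hr hne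
    simp only [zero_add] at this
    rw [entries, List.mem_map]
    exact ⟨_, this, rfl⟩
  have hlt : ∀ r : List ℕ, (al * (nwt u r).1 + be * (nwt u r).2) % D < D :=
    fun r => Nat.mod_lt _ hD
  have hle : ∀ s ∈ S, ∀ r : List ℕ, r <+: h s → (nwt u r).1 ≤ (nwt u (h s)).1 ∧
      (nwt u r).2 ≤ (nwt u (h s)).2 := by
    rintro s hs r ⟨q, hq⟩
    rw [← hq]
    simp [nwt]
  refine ⟨?_, ?_, lin_inj hdet, ?_, ?_, ?_, ?_⟩
  · intro w hw h0
    rw [wt_zw] at h0
    have e1 : ((nwt u w).1 : ℤ) = 0 := congrArg Prod.fst h0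
    have e2 : ((nwt u w).2 : ℤ) = 0 := congrArg Prod.snd h0
    cases w with
    | nil => exact hw rfl
    | cons x w =>
      have := hu x
      simp only [nwt, List.map_cons, List.sum_cons] at e1 e2
      omega
  · intro s hs; exact h1 s hs
  · intro s hs
    rw [wt_zw]
    exact h2 s hs
  · intro s hs
    rw [hcl, h3 s hs]; simp
  · intro a0 ha0 a1 ha1 a2 ha2 a3 ha3 r0 r1 r2 r3 hr0 hr1 hr2 hr3 e1 e2
    rw [hcl, hcl, hcl] at e1
    rw [hcl, hcl, hcl] at e2
    rw [hcl, hcl]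
    have m0 := h4 a0 ha0 _ (hent a0 ha0 r0 hr0.1 hr0.2)
    have m1 := h4 a1 ha1 _ (hent a1 ha1 r1 hr1.1 hr1.2)
    have m2 := h4 a2 ha2 _ (hent a2 ha2 r2 hr2.1 hr2.2)
    have m3 := h4 a3 ha3 _ (hent a3 ha3 r3 hr3.1 hr3.2)
    have := chkAP_sound h5 m0 m1 m2 m3 (hlt _) (hlt _) (hlt _) e1 e2
    exact congrArg _ this
  · intro g
    by_cases hg : g.val ∈ suf
    · right
      refine ⟨?_, ?_⟩
      · rintro rfl
        simp at hg
        exact h7 hg
      · intro a0 ha0 b0 hb0 r r' hr hr' e1 e2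
        rw [hcl] at e1 e2
        have v1 : (al * (nwt u r).1 + be * (nwt u r).2) % D = g.val := by
          rw [← e1, ZMod.val_natCast, Nat.mod_mod]
        have v2 : (al * (nwt u r').1 + be * (nwt u r').2) % D = g.val := by
          rw [← e2, ZMod.val_natCast, Nat.mod_mod]
        have := (chkTyp_sound h6 _ (List.mem_flatMap.2 ⟨a0, ha0, hent a0 ha0 r hr.1 hr.2⟩) _
          (List.mem_flatMap.2 ⟨b0, hb0, hent b0 hb0 r' hr'.1 hr'.2⟩) (v1.trans v2.symm)).1
          (by rw [v1]; exact hg)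
        simp only [Prod.mk.injEq] at this
        have l1 := hle a0 ha0 r hr.1
        have l2 := hle b0 hb0 r' hr'.1
        rw [wt_zw, wt_zw, wt_zw, wt_zw]
        ext
        · simp only [Prod.fst_sub]; omega
        · simp only [Prod.snd_sub]; omega
    · left
      intro a0 ha0 b0 hb0 r r' hr hr' e1 e2
      rw [hcl] at e1 e2
      have v1 : (al * (nwt u r).1 + be * (nwt u r).2) % D = g.val := by
        rw [← e1, ZMod.val_natCast, Nat.mod_mod]
      have v2 : (al * (nwt u r').1 + be * (nwt u r').2) % D = g.val := by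
        rw [← e2, ZMod.val_natCast, Nat.mod_mod]
      have := (chkTyp_sound h6 _ (List.mem_flatMap.2 ⟨a0, ha0, hent a0 ha0 r hr.1 hr.2⟩) _
        (List.mem_flatMap.2 ⟨b0, hb0, hent b0 hb0 r' hr'.1 hr'.2⟩) (v1.trans v2.symm)).2
        (by rw [v1]; exact hg)
      simp only at this
      rw [wt_zw, wt_zw, this]

end Pool.Agent.W_MP_c93f48_co
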