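import Pool.Agent.W_MP_c93f48_co.Check

set_option autoImplicit false

namespace Pool.Agent.W_MP_c93f48_co

/-- bitmask version of the progression test -/
def chkAPm (D : ℕ) (A : List ℕ) (m : ℕ) : Bool :=
  A.all fun a => A.all fun b => a == b ||
    !(m.testBit ((2 * b + (D - a)) % D) && m.testBit ((3 * b + 2 * (D - a)) % D))

lemma chkAP_of_mask {D : ℕ} {A : List ℕ} {m : ℕ} (hm : A.all (fun a => m.testBit a) = true)
    (h : chkAPm D A m = true) : chkAP D A = true := by
  rw [List.all_eq_true] at hm
  have key : ∀ x, A.contains x = true → m.testBit x = true := by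
    intro x hx
    exact hm x (by simpa using hx)
  rw [chkAP, List.all_eq_true]
  rw [chkAPm, List.all_eq_true] at h
  intro a ha
  have h1 := h a ha
  rw [List.all_eq_true] at h1 ⊢
  intro b hb
  have h2 := h1 b hb
  rw [Bool.or_eq_true] at h2 ⊢
  rcases h2 with h2 | h2
  · exact Or.inl h2
  · right
    rw [Bool.not_eq_true', Bool.and_eq_false_iff] at h2 ⊢
    rcases h2 with h2 | h2
    · left
      by_contra hc
      rw [Bool.not_eq_false] at hc
      rw [key _ hc] at h2
      exact absurd h2 (by simp)
    · right
      by_contra hc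
      rw [Bool.not_eq_false] at hc
      rw [key _ hc] at h2
      exact absurd h2 (by simp)

end Pool.Agent.W_MP_c93f48_co
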