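import Pool.Agent.W_MP_c93f48_co.U3

set_option autoImplicit false

namespace Pool.Agent.W_MP_c93f48_co

/-- `33 * (number of letters 2) - 10 * length` -/
def devU : ℤ × ℤ × ℤ →+ ℤ where
  toFun p := 33 * p.2.2 - 10 * p.1
  map_zero' := by simp
  map_add' p q := by simp only [Prod.fst_add, Prod.snd_add]; ring

lemma devU_apply (p : ℤ × ℤ × ℤ) : devU p = 33 * p.2.2 - 10 * p.1 := rfl

lemma devU_img (a : ℕ) (ha : a ∈ [0,1,2,3]) : devU (wt (zw3 nU) (hU a)) = 0 := by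
  rw [strongU.wth a ha, devU_apply]
  simp [lin3]
  ring

lemma devU_small (a : ℕ) (ha : a ∈ [0,1,2,3]) (r : List ℕ) (h1 : r <+: hU a) (h2 : r ≠ hU a) :
    -41 ≤ devU (wt (zw3 nU) r) ∧ devU (wt (zw3 nU) r) ≤ 51 := by
  have key : ∀ a ∈ [0,1,2,3], ∀ p ∈ prefW3 nU 0 0 0 (hU a),
      10 * p.1 ≤ 33 * p.2.2 + 41 ∧ 33 * p.2.2 ≤ 10 * p.1 + 51 := by decide +kernel
  have hm := mem_prefW3 nU (hU a) r 0 0 0 h1 h2
  simp only [zero_add] at hm
  have := key a ha _ hm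
  rw [devU_apply, wt_zw3]
  dsimp only at this ⊢
  omega

lemma devU_flat : ∀ w : List ℕ, (∀ a ∈ w, a ∈ [0,1,2,3]) →
    devU (wt (zw3 nU) (w.flatMap hU)) = 0 := by
  intro w
  induction w with
  | nil => intro _; simp
  | cons a w ih =>
    intro hw
    rw [List.flatMap_cons, wt_append, map_add, devU_img a (hw a (by simp)),
      ih (fun b hb => hw b (List.mem_cons_of_mem _ hb)), add_zero]

lemma devU_pre (w : List ℕ) (hw : ∀ a ∈ w, a ∈ [0,1,2,3]) (P : List ℕ)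
    (hP : P <+: w.flatMap hU) :
    -41 ≤ devU (wt (zw3 nU) P) ∧ devU (wt (zw3 nU) P) ≤ 51 := by
  obtain ⟨m, hm, r, hr, hcase⟩ := split_prefix hU w (fun a ha => strongU.ne a (hw a ha)) P hP
  have h0 := devU_flat (w.take m) (fun a ha => hw a (List.mem_of_mem_take ha))
  rw [hr, wt_append, map_add, h0, zero_add]
  rcases hcase with ⟨_, h2⟩ | ⟨h1, h2, h3⟩
  · rw [h2]; simp
  · exact devU_small _ (hw _ (List.getElem_mem h1)) r h2 h3

/-- letters `0, 1, 2` are sent to `0, j, i` -/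
def phi (i j : ℕ) (b : ℕ) : ℕ := if b = 1 then j else if b = 2 then i else 0

lemma wt_phi (i j : ℕ) (w : List ℕ) : wt tw (w.map (phi i j)) =
    ((wt (zw3 nU) w).1, j * (wt (zw3 nU) w).2.1 + i * (wt (zw3 nU) w).2.2) := by
  induction w with
  | nil => simp [Prod.ext_iff]
  | cons b w ih =>
    rw [List.map_cons, wt_cons, ih, wt_cons]
    ext
    · simp [tw, zw3, nU]
    · simp only [tw, zw3, nU, phi, Prod.snd_add, Prod.fst_add]
      by_cases h1 : b = 1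
      · subst h1; simp; ring
      · by_cases h2 : b = 2
        · subst h2; simp; ring
        · simp [h1, h2]

theorem cf_phi (i j : ℕ) (hij : Nat.Coprime i j) (hj : 6 ≤ j) (w : List ℕ)
    (hw : ∀ a ∈ w, a ∈ [0,1,2,3]) (hcf : CF tw w) : CF tw ((w.flatMap hU).map (phi i j)) := by
  have hCF := strongU.preserves w hw hcf
  intro u b1 b2 b3 v heq hb ⟨h1, h2⟩
  obtain ⟨x, v', e1, q1, -⟩ := List.map_eq_append_iff.1 heq
  obtain ⟨x2, b3', e2, q2, p3⟩ := List.map_eq_append_iff.1 q1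
  obtain ⟨x3, b2', e3, q3, p2⟩ := List.map_eq_append_iff.1 q2
  obtain ⟨u', b1', e4, -, p1⟩ := List.map_eq_append_iff.1 q3
  have hW : w.flatMap hU = u' ++ b1' ++ b2' ++ b3' ++ v' := by rw [e1, e2, e3, e4]
  have hb' : b1' ≠ [] := by
    rintro rfl
    exact hb (by rw [← p1]; rfl)
  refine hCF _ _ _ _ _ hW hb' ?_
  rw [← p1, ← p2, wt_phi, wt_phi] at h1
  rw [← p2, ← p3, wt_phi, wt_phi] at h2
  have d0 := devU_pre w hw u' ⟨b1' ++ b2' ++ b3' ++ v', by rw [hW]; simp⟩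
  have d1 := devU_pre w hw (u' ++ b1') ⟨b2' ++ b3' ++ v', by rw [hW]; simp⟩
  have d2 := devU_pre w hw (u' ++ b1' ++ b2') ⟨b3' ++ v', by rw [hW]; simp⟩
  have d3 := devU_pre w hw (u' ++ b1' ++ b2' ++ b3') ⟨v', by rw [hW]⟩
  simp only [wt_append, devU_apply, Prod.fst_add, Prod.snd_add] at d0 d1 d2 d3
  simp only [Prod.mk.injEq] at h1 h2
  set A := wt (zw3 nU) b1'
  set B := wt (zw3 nU) b2'
  set C := wt (zw3 nU) b3'
  set U := wt (zw3 nU) u'
  have core : ∀ A B : ℤ × ℤ × ℤ, A.1 = B.1 → (j : ℤ) * A.2.1 + i * A.2.2 = j * B.2.1 + i * B.2.2 →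
      -6 < A.2.2 - B.2.2 → A.2.2 - B.2.2 < 6 → A = B := by
    intro A B f1 f2 f3 f4
    have hdvd : (j : ℤ) ∣ (i : ℤ) * (A.2.2 - B.2.2) := ⟨B.2.1 - A.2.1, by linear_combination f2⟩
    have hcop : IsCoprime (j : ℤ) (i : ℤ) := (Nat.isCoprime_iff_coprime.2 hij).symm
    have h5 := hcop.dvd_of_dvd_mul_left hdvd
    have h6 : A.2.2 - B.2.2 = 0 := by
      refine Int.eq_zero_of_abs_lt_dvd h5 ?_
      rw [abs_lt]
      have : (6 : ℤ) ≤ j := by exact_mod_cast hj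
      constructor <;> linarith
    have h7 : A.2.2 = B.2.2 := by linarith
    have hj0 : (j : ℤ) ≠ 0 := by
      have : (6 : ℤ) ≤ j := by exact_mod_cast hj
      linarith
    have h8 : A.2.1 = B.2.1 := by
      rw [h7] at f2
      exact mul_left_cancel₀ hj0 (by linarith)
    exact Prod.ext f1 (Prod.ext h8 h7)
  exact ⟨core A B h1.1 h1.2 (by omega) (by omega), core B C h2.1 h2.2 (by omega) (by omega)⟩

theorem unbU (i j : ℕ) (hij : Nat.Coprime i j) (hj : 6 ≤ j) : Unb {s | s ∈ [0, i, j]} tw := by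
  intro n
  obtain ⟨w, hw, hl, hcf⟩ := unb0123 n
  refine ⟨(w.flatMap hU).map (phi i j), ?_, ?_, cf_phi i j hij hj w hw hcf⟩
  · intro a ha
    obtain ⟨b, -, rfl⟩ := List.mem_map.1 ha
    simp only [phi, Set.mem_ofPred_eq, List.mem_cons, List.not_mem_nil, or_false]
    split_ifs <;> simp
  · rw [List.length_map]
    have := length_flatMap_ge hU 1 w (fun a ha => List.length_pos_of_ne_nil (strongU.ne a (hw a ha)))
    omega

end Pool.Agent.W_MP_c93f48_co
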