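import Pool.Agent.W_MP_c93f48_co.E5
import Pool.Agent.W_MP_c93f48_co.UTrans
import Pool.Agent.W_MP_c93f48_co.A013
import Pool.Agent.W_MP_c93f48_co.Affine

set_option autoImplicit false

namespace Pool.Agent.W_MP_c93f48_co

/-- avoidability over a set -/
def Av (A : Set ℕ) : Prop := ∃ x : ℕ → ℕ, (∀ i, x i ∈ A) ∧ NoCube x

lemma Av.mono {A B : Set ℕ} (h : A ⊆ B) (ha : Av A) : Av B := by
  obtain ⟨x, hx, hc⟩ := ha
  exact ⟨x, fun i => h (hx i), hc⟩

lemma av_of_unb (L : List ℕ) (H : Unb {s | s ∈ L} tw) : Av {s | s ∈ L} := by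
  have e : {s | s ∈ L} = (↑(L.toFinset) : Set ℕ) := by ext s; simp
  rw [e] at H ⊢
  exact exists_noCube L.toFinset H

lemma av_reflect {i j : ℕ} (hij : i ≤ j) (h : Av {s | s ∈ [0, i, j]}) :
    Av {s | s ∈ [0, j - i, j]} := by
  obtain ⟨x, hx, hc⟩ := h
  have hx' : ∀ k, x k = 0 ∨ x k = i ∨ x k = j := by
    intro k
    have := hx k
    simpa using this
  refine ⟨fun k => j - 1 * x k, ?_, hc.reflect j 1 one_pos ?_⟩
  · intro k
    simp only [one_mul, Set.mem_ofPred_eq, List.mem_cons, List.not_mem_nil, or_false]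
    rcases hx' k with h | h | h <;> rw [h]
    · right; right; simp
    · right; left; trivial
    · left; simp
  · intro k
    rcases hx' k with h | h | h <;> rw [h] <;> omega

/-- All alphabets `{0, i, j}` with coprime `0 < i < j`. -/
lemma av_coprime (i j : ℕ) (hi : 0 < i) (hij : i < j) (hc : Nat.Coprime i j) :
    Av {s | s ∈ [0, i, j]} := by
  by_cases h6 : 6 ≤ j
  · exact av_of_unb _ (unbU i j hc h6)
  · push Not at h6
    have h15 := av_of_unb _ unb015
    have h25 := av_of_unb _ unb025
    have h14 := av_of_unb _ unb014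
    have h13 := av_of_unb _ unb013
    have h12 := av_of_unb _ unb012
    have hj' : j = 2 ∨ j = 3 ∨ j = 4 ∨ j = 5 := by omega
    rcases hj' with rfl | rfl | rfl | rfl
    · have hi' : i = 1 := by omega
      subst hi'
      exact h12
    · have hi' : i = 1 ∨ i = 2 := by omega
      rcases hi' with rfl | rfl
      · exact h13
      · exact av_reflect (by norm_num) h13
    · have hi' : i = 1 ∨ i = 2 ∨ i = 3 := by omega
      rcases hi' with rfl | rfl | rfl
      · exact h14
      · norm_num at hc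
      · exact av_reflect (by norm_num) h14
    · have hi' : i = 1 ∨ i = 2 ∨ i = 3 ∨ i = 4 := by omega
      rcases hi' with rfl | rfl | rfl | rfl
      · exact h15
      · exact h25
      · exact av_reflect (by norm_num) h25
      · exact av_reflect (by norm_num) h15

lemma av_affine {i j : ℕ} (h : Av {s | s ∈ [0, i, j]}) (a g : ℕ) (hg : 0 < g) :
    Av {a, a + g * i, a + g * j} := by
  obtain ⟨x, hx, hc⟩ := h
  refine ⟨fun k => a + g * x k, ?_, hc.affine a g hg⟩
  intro k
  have : x k = 0 ∨ x k = i ∨ x k = j := by simpa using hx k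
  rcases this with h | h | h <;> simp [h]

/-- Every set containing three different numbers. -/
lemma av_triple (A : Set ℕ) (p q r : ℕ) (hp : p ∈ A) (hq : q ∈ A) (hr : r ∈ A) (hpq : p < q)
    (hqr : q < r) : Av A := by
  set g := Nat.gcd (q - p) (r - p) with hg
  have hg0 : 0 < g := Nat.gcd_pos_of_pos_left _ (by omega)
  obtain ⟨i, hi⟩ := Nat.gcd_dvd_left (q - p) (r - p)
  obtain ⟨j, hj⟩ := Nat.gcd_dvd_right (q - p) (r - p)
  rw [← hg] at hi hj
  have hcop : Nat.Coprime i j := by
    have := Nat.coprime_div_gcd_div_gcd (m := q - p) (n := r - p) hg0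
    rwa [← hg, hi, hj, Nat.mul_div_cancel_left _ hg0, Nat.mul_div_cancel_left _ hg0] at this
  have hi0 : 0 < i := by
    rcases Nat.eq_zero_or_pos i with h | h
    · rw [h] at hi; omega
    · exact h
  have hij : i < j := by
    by_contra hle
    push Not at hle
    have := Nat.mul_le_mul_left g hle
    omega
  refine (av_affine (av_coprime i j hi0 hij hcop) p g hg0).mono ?_
  rw [← hi, ← hj]
  intro s hs
  rcases hs with rfl | rfl | rfl
  · exact hp
  · rwa [Nat.add_sub_cancel' hpq.le]
  · rwa [Nat.add_sub_cancel' (hpq.trans hqr).le]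

theorem av_of_card (A : Finset ℕ) (h : 3 ≤ A.card) : Av (↑A : Set ℕ) := by
  obtain ⟨a, ha, b, hb, c, hc, hab, hac, hbc⟩ := Finset.two_lt_card.1 h
  have key := av_triple (↑A : Set ℕ)
  rcases lt_or_gt_of_ne hab with h1 | h1 <;> rcases lt_or_gt_of_ne hac with h2 | h2 <;>
    rcases lt_or_gt_of_ne hbc with h3 | h3
  · exact key a b c ha hb hc h1 h3
  · exact key a c b ha hc hb h2 h3
  · omega
  · exact key c a b hc ha hb h2 h1
  · exact key b a c hb ha hc h1 h2
  · omega
  · exact key b c a hb hc ha h3 h2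
  · exact key c b a hc hb ha h3 h1

end Pool.Agent.W_MP_c93f48_co
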