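import Pool.Agent.W_MP_c93f48_co.Mark

set_option autoImplicit false

namespace Pool.Agent.W_MP_c93f48_co

variable {β : Type*}

/-- cast a natural weight to an integer weight -/
def zg (u : β → ℕ × ℕ) (b : β) : ℤ × ℤ := (((u b).1 : ℤ), ((u b).2 : ℤ))

/-- natural total weight -/
def gwt (u : β → ℕ × ℕ) (w : List β) : ℕ × ℕ :=
  ((w.map fun b => (u b).1).sum, (w.map fun b => (u b).2).sum)

lemma wt_zg (u : β → ℕ × ℕ) (w : List β) :
    wt (zg u) w = (((gwt u w).1 : ℤ), ((gwt u w).2 : ℤ)) := by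
  induction w with
  | nil => simp [gwt, Prod.ext_iff]
  | cons b w ih =>
    rw [wt_cons, ih]
    ext <;> simp [gwt, zg]

/-- marks and accumulated weights of the positions of a word -/
def entB (u : β → ℕ × ℕ) (mk : β → ℕ) : ℕ → ℕ → List β → List (ℕ × (ℕ × ℕ))
  | _, _, [] => []
  | x, y, b :: w => (mk b, (x, y)) :: entB u mk (x + (u b).1) (y + (u b).2) w

lemma mem_entB (u : β → ℕ × ℕ) (mk : β → ℕ) (b : β) (q : List β) : ∀ (r : List β) (x y : ℕ),
    (mk b, (x + (gwt u r).1, y + (gwt u r).2)) ∈ entB u mk x y (r ++ b :: q) := by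
  intro r
  induction r with
  | nil => intro x y; simp [entB, gwt]
  | cons c r ih =>
    intro x y
    have := ih (x + (u c).1) (y + (u c).2)
    simp only [List.cons_append, entB, List.mem_cons]
    right
    convert this using 3
    · simp [gwt]; ring
    · simp [gwt]; ring

/-- all entries `(source letter, mark, class, weight)` -/
def entsB (u : β → ℕ × ℕ) (mk : β → ℕ) (s : Bool → ℕ × ℕ) (B : Bool → Bool → List β)
    (al be D : ℕ) : List (Bool × ℕ × ℕ × (ℕ × ℕ)) :=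
  [false, true].flatMap fun x => [false, true].flatMap fun y =>
    (entB u mk (s x).1 (s x).2 (B x y)).map fun e =>
      (x, e.1, (al * e.2.1 + be * e.2.2) % D, e.2)

def chkUniq (E : List (Bool × ℕ × ℕ × (ℕ × ℕ))) : Bool :=
  E.all fun e => E.all fun e' => !(e.2.2.1 == e'.2.2.1 && e.2.1 == e'.2.1) ||
    (e.1 == e'.1 && e.2.2.2 == e'.2.2.2)

lemma chkUniq_sound {E : List (Bool × ℕ × ℕ × (ℕ × ℕ))} (h : chkUniq E = true) :
    ∀ e ∈ E, ∀ e' ∈ E, e.2.2.1 = e'.2.2.1 → e.2.1 = e'.2.1 → e.1 = e'.1 ∧ e.2.2.2 = e'.2.2.2 := by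
  intro e he e' he' h1 h2
  rw [chkUniq, List.all_eq_true] at h
  have h' := h e he
  rw [List.all_eq_true] at h'
  have h'' := h' e' he'
  simpa [h1, h2] using h''

/-- weight of a binary letter -/
def tB (b : Bool) : ℤ × ℤ := (1, if b then 1 else 0)

theorem cross_of_check (u : β → ℕ × ℕ) (mk : β → ℕ) (s : Bool → ℕ × ℕ)
    (B : Bool → Bool → List β) (a b c d : ℤ) (al be D : ℕ) (A : ℕ → List ℕ) (ms : List ℕ)
    (hD : 0 < D) (hu : ∀ b, 0 < (u b).1) (hdet : a * d - b * c ≠ 0)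
    (hw : ∀ x y : Bool, (((s x).1 + (gwt u (B x y)).1 : ℕ) : ℤ) =
        (lin a b c d (tB x)).1 + ((s y).1 : ℤ) ∧
      (((s x).2 + (gwt u (B x y)).2 : ℕ) : ℤ) = (lin a b c d (tB x)).2 + ((s y).2 : ℤ))
    (hcl : ∀ x : Bool, clsm al be D (lin a b c d (tB x)) = 0)
    (hA : ∀ e ∈ entsB u mk s B al be D, e.2.1 ∈ ms ∧ e.2.2.1 ∈ A e.2.1)
    (hap : ∀ m ∈ ms, chkAP D (A m) = true)
    (hun : chkUniq (entsB u mk s B al be D) = true) :
    Cross tB (zg u) mk B (fun x => (((s x).1 : ℤ), ((s x).2 : ℤ))) (lin a b c d)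
      (clsm al be D) := by
  have : NeZero D := ⟨by omega⟩
  have cl : ∀ (x : Bool) (r : List β),
      clsm al be D ((((s x).1 : ℤ), ((s x).2 : ℤ)) + wt (zg u) r) =
      (((al * ((s x).1 + (gwt u r).1) + be * ((s x).2 + (gwt u r).2)) % D : ℕ) : ZMod D) := by
    intro x r
    rw [wt_zg, ZMod.natCast_mod]
    simp [clsm]
  have ent : ∀ (x y : Bool) (r : List β) (b : β) (q : List β), B x y = r ++ b :: q →
      (x, mk b, (al * ((s x).1 + (gwt u r).1) + be * ((s x).2 + (gwt u r).2)) % D,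
        ((s x).1 + (gwt u r).1, (s x).2 + (gwt u r).2)) ∈ entsB u mk s B al be D := by
    intro x y r b q h
    rw [entsB, List.mem_flatMap]
    refine ⟨x, by cases x <;> simp, ?_⟩
    rw [List.mem_flatMap]
    refine ⟨y, by cases y <;> simp, ?_⟩
    rw [List.mem_map]
    exact ⟨_, by rw [h]; exact mem_entB u mk b q r _ _, rfl⟩
  have hlt : ∀ n : ℕ, n % D < D := fun n => Nat.mod_lt _ hD
  refine ⟨?_, lin_inj hdet, ?_, hcl, ?_, ?_⟩
  · intro b v h0
    rw [wt_zg] at h0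
    have e1 : ((gwt u (b :: v)).1 : ℤ) = 0 := congrArg Prod.fst h0
    have := hu b
    simp only [gwt, List.map_cons, List.sum_cons] at e1
    omega
  · intro x y
    obtain ⟨h1, h2⟩ := hw x y
    rw [wt_zg]
    ext
    · simp only [Prod.fst_add]
      push_cast at h1
      exact h1
    · simp only [Prod.snd_add]
      push_cast at h2
      exact h2
  · intro x0 y0 x1 y1 x2 y2 x3 y3 r0 r1 r2 r3 b0 b1 b2 b3 q0 q1 q2 q3 f0 f1 f2 f3 m01 m12 m23 e1 e2
    beta_reduce at e1 e2 ⊢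
    rw [cl, cl, cl] at e1
    rw [cl, cl, cl] at e2
    rw [cl, cl]
    have g0 := hA _ (ent _ _ _ _ _ f0)
    have g1 := hA _ (ent _ _ _ _ _ f1)
    have g2 := hA _ (ent _ _ _ _ _ f2)
    have g3 := hA _ (ent _ _ _ _ _ f3)
    dsimp only at g0 g1 g2 g3
    rw [← m01] at g1
    rw [← m12, ← m01] at g2
    rw [← m23, ← m12, ← m01] at g3
    have := chkAP_sound (hap _ g0.1) g0.2 g1.2 g2.2 g3.2 (hlt _) (hlt _) (hlt _) e1 e2
    exact congrArg _ this
  · intro x y x' y' r r' b b' q q' f f' hm he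
    beta_reduce at he ⊢
    rw [cl, cl] at he
    have h1 := (ZMod.natCast_eq_natCast_iff' _ _ _).1 he
    rw [Nat.mod_mod, Nat.mod_mod] at h1
    have h2 := chkUniq_sound hun _ (ent _ _ _ _ _ f) _ (ent _ _ _ _ _ f') h1 hm
    dsimp only at h2
    refine ⟨h2.1, ?_⟩
    have h3 := h2.2
    rw [Prod.mk.injEq] at h3
    rw [wt_zg, wt_zg]
    ext
    · simp only [Prod.fst_add]
      exact_mod_cast h3.1
    · simp only [Prod.snd_add]
      exact_mod_cast h3.2

end Pool.Agent.W_MP_c93f48_co
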