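import Pool.Agent.W_MP_c93f48_co.D0123
import Pool.Agent.W_MP_c93f48_co.Mask

set_option autoImplicit false

namespace Pool.Agent.W_MP_c93f48_co

/-- morphism from `{0,1,2,3}` to words over `{0,1,4}` -/
def h014 : ℕ → List ℕ
  | 0 =>
    [0, 1, 1, 4, 0, 0, 1, 0, 0, 1, 0, 0, 4, 0, 1, 0, 0, 1, 1, 4, 0, 1, 1, 4, 0, 0, 4, 0, 0, 1,
     4, 1, 1, 4, 1, 1, 4, 4, 0]
  | 1 =>
    [0, 1, 1, 4, 0, 0, 1, 0, 0, 1, 0, 0, 4, 0, 1, 0, 0, 1, 1, 4, 1, 4, 4, 0, 4, 1, 4, 4, 0, 4,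
     4, 1, 1, 4, 1, 1, 4, 4, 0]
  | 2 =>
    [0, 1, 1, 4, 0, 0, 1, 0, 0, 1, 1, 4, 4, 1, 4, 4, 1, 0, 4, 4, 0, 4, 4, 0, 4, 1, 4, 4, 0, 4,
     4, 1, 1, 4, 1, 1, 4, 4, 0]
  | _ =>
    [0, 1, 1, 4, 4, 1, 4, 4, 1, 4, 0, 4, 4, 1, 4, 4, 1, 0, 4, 4, 0, 4, 4, 0, 4, 1, 4, 4, 0, 4,
     4, 1, 1, 4, 1, 1, 4, 4, 0]

/-- classes of the proper beginnings of the images -/
def cl014 : List ℕ :=
  [0, 4, 10, 13, 23, 42, 45, 53, 55, 59, 63, 65, 70, 72, 82, 92, 108, 124, 134, 141, 145, 152,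
   162, 190, 194, 208, 229, 231, 236, 241, 243, 251, 257, 274, 284, 285, 294, 300, 328, 343,
   353, 356, 363, 366, 377, 395, 405, 409, 412, 415, 422, 423, 432, 440, 451, 461, 464, 466,
   489, 515, 543, 564, 571, 575]

/-- classes of suffix type -/
def suf014 : List ℕ :=
  [4, 42, 53, 63, 124, 134, 145, 152, 162, 194, 208, 229, 243, 257, 300, 328, 377, 395, 405,
   409, 423, 461, 466, 515, 543, 564, 571, 575]

theorem strong014 : Strong {s | s ∈ [0,1,2,3]} tw tw h014 (lin 39 0 50 15)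
    (clsm (10 : ℕ) (39 : ℕ) 585) := by
  have := strong_of_check [0,1,2,3] tw nw h014 39 0 50 15 10 39 585 cl014 suf014
    (by norm_num) (by intro b; simp [nw]) (by norm_num) (by decide) (by decide +kernel)
    (by decide +kernel) (by decide +kernel)
    (chkAP_of_mask (m := 131454659210176976773616751052847107146582273044812838998937990342622018728521568971040091228572179276134008362792092531822723259227572745018603735462337887049347514467623953) (by decide +kernel) (by decide +kernel))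
    (by decide +kernel) (by decide)
  rwa [zw_nw] at this

theorem unb014 : Unb {s | s ∈ [0,1,4]} tw := by
  refine Unb.map strong014 ?_ unb0123
  show ∀ a ∈ [0,1,2,3], ∀ b ∈ h014 a, b ∈ [0,1,4]
  decide +kernel

/-- morphism from `{0,1,2,3}` to words over `{0,1,5}` -/
def h015 : ℕ → List ℕ
  | 0 =>
    [1, 1, 0, 0, 1, 0, 0, 1, 0, 5, 1, 0, 0, 1, 0, 0, 1, 0, 5, 1, 0, 5, 0, 5, 0, 1, 1, 0, 1, 1,
     5]
  | 1 =>
    [1, 5, 5, 0, 1, 0, 0, 5, 0, 5, 1, 0, 0, 1, 0, 0, 1, 0, 5, 1, 0, 5, 0, 5, 0, 1, 1, 0, 1, 1,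
     5]
  | 2 =>
    [1, 5, 5, 0, 1, 1, 5, 1, 1, 5, 1, 0, 0, 1, 1, 5, 5, 0, 5, 1, 0, 5, 0, 5, 0, 1, 1, 0, 1, 1,
     5]
  | _ =>
    [1, 5, 5, 0, 1, 1, 5, 1, 1, 5, 5, 0, 5, 5, 1, 5, 5, 0, 5, 1, 0, 5, 0, 5, 0, 1, 1, 0, 1, 1,
     5]

/-- classes of the proper beginnings of the images -/
def cl015 : List ℕ :=
  [0, 3, 5, 12, 22, 24, 26, 33, 59, 66, 68, 70, 92, 103, 105, 107, 110, 112, 140, 142, 145,
   146, 148, 162, 169, 178, 180, 190, 195, 197, 202, 213, 235, 246, 249, 299, 305, 332, 334,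
   336, 347, 349, 354, 356, 369, 371, 373, 382, 384, 386, 392]

/-- classes of suffix type -/
def suf015 : List ℕ :=
  [3, 5, 59, 92, 110, 112, 140, 142, 145, 162, 178, 180, 195, 197, 213, 246, 249, 299, 332,
   334, 336, 354, 356, 369, 371, 373]

theorem strong015 : Strong {s | s ∈ [0,1,2,3]} tw tw h015 (lin 31 0 37 13)
    (clsm (2 : ℕ) (31 : ℕ) 403) := by
  have := strong_of_check [0,1,2,3] tw nw h015 31 0 37 13 2 31 403 cl015 suf015
    (by norm_num) (by intro b; simp [nw]) (by norm_num) (by decide) (by decide +kernel)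
    (by decide +kernel) (by decide +kernel)
    (chkAP_of_mask (m := 10293799370522821188106025957458189098373516886713389715773871807742376929685070261202642831657889090298393708820697129) (by decide +kernel) (by decide +kernel))
    (by decide +kernel) (by decide)
  rwa [zw_nw] at this

theorem unb015 : Unb {s | s ∈ [0,1,5]} tw := by
  refine Unb.map strong015 ?_ unb0123
  show ∀ a ∈ [0,1,2,3], ∀ b ∈ h015 a, b ∈ [0,1,5]
  decide +kernel

/-- morphism from `{0,1,2,3}` to words over `{0,2,5}` -/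
def h025 : ℕ → List ℕ
  | 0 =>
    [2, 5, 0, 2, 0, 0, 5, 0, 0, 2, 0, 0, 2, 0, 5, 5, 0, 5, 2, 0, 0, 5, 0, 0, 2, 5, 2, 2, 0, 0,
     2, 5, 5, 0, 5, 5, 0, 0, 2]
  | 1 =>
    [2, 5, 5, 2, 5, 5, 0, 5, 2, 0, 0, 2, 0, 5, 5, 2, 2, 5, 2, 0, 0, 5, 0, 0, 2, 5, 2, 2, 0, 0,
     2, 5, 5, 0, 5, 5, 0, 0, 2]
  | 2 =>
    [2, 5, 5, 2, 5, 5, 0, 5, 2, 5, 5, 2, 5, 5, 2, 2, 0, 5, 2, 5, 5, 2, 2, 0, 2, 5, 2, 2, 0, 0,
     2, 5, 5, 0, 5, 5, 0, 0, 2]
  | _ =>
    [2, 5, 5, 2, 5, 5, 0, 5, 2, 5, 5, 2, 5, 5, 2, 2, 0, 5, 2, 5, 5, 2, 5, 5, 0, 5, 5, 2, 5, 5,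
     2, 5, 5, 0, 5, 5, 0, 0, 2]

/-- classes of the proper beginnings of the images -/
def cl025 : List ℕ :=
  [0, 5, 14, 16, 17, 22, 66, 71, 79, 100, 101, 102, 128, 145, 171, 181, 201, 202, 207, 210,
   213, 218, 267, 268, 275, 276, 289, 292, 341, 355, 356, 357, 367, 368, 377, 398, 403, 414,
   415, 456, 464, 471, 477, 478, 479, 488, 535, 536, 537, 550, 553, 554, 555, 558, 559, 564,
   599, 611, 616, 634, 635, 636, 643, 644, 645, 660, 661, 662, 673, 678, 684, 715, 716]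

/-- classes of suffix type -/
def suf025 : List ℕ :=
  [71, 100, 101, 102, 181, 267, 268, 368, 377, 456, 464, 535, 536, 537, 564, 616, 643, 644,
   645, 660, 661, 662]

theorem strong025 : Strong {s | s ∈ [0,1,2,3]} tw tw h025 (lin 39 0 75 19)
    (clsm (1 : ℕ) (39 : ℕ) 741) := by
  have := strong_of_check [0,1,2,3] tw nw h025 39 0 75 19 1 39 741 cl025 suf025
    (by norm_num) (by intro b; simp [nw]) (by norm_num) (by decide) (by decide +kernel)
    (by decide +kernel) (by decide +kernel)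
    (chkAP_of_mask (m := 517092399747367952100357833475442635188802185464428248936081622732912609029465063804009345033132920624605584440274154192419108068404936455286245980778837225039271465036594740110098932547384126911896037652444592947233) (by decide +kernel) (by decide +kernel))
    (by decide +kernel) (by decide)
  rwa [zw_nw] at this

theorem unb025 : Unb {s | s ∈ [0,2,5]} tw := by
  refine Unb.map strong025 ?_ unb0123
  show ∀ a ∈ [0,1,2,3], ∀ b ∈ h025 a, b ∈ [0,2,5]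
  decide +kernel

end Pool.Agent.W_MP_c93f48_co
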