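import Pool.Agent.W_MP_c93f48_co.Unb

/-!
A fast (bitmask based) version of the checker in `Check.lean`, usable for morphisms whose images
have several hundred letters.
-/

set_option autoImplicit false

namespace Pool.Agent.W_MP_c93f48_co

/-- check `f` on `[s, s + 2^k)` by binary splitting -/
def chkRange (f : ℕ → Bool) : ℕ → ℕ → Bool
  | 0, s => f s
  | k + 1, s => chkRange f k s && chkRange f k (s + 2 ^ k)

lemma chkRange_sound (f : ℕ → Bool) : ∀ (k s : ℕ), chkRange f k s = true →
    ∀ j, s ≤ j → j < s + 2 ^ k → f j = true := by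
  intro k
  induction k with
  | zero =>
    intro s h j h1 h2
    have : j = s := by simp at h2; omega
    rw [this]; exact h
  | succ k ih =>
    intro s h j h1 h2
    rw [chkRange, Bool.and_eq_true] at h
    by_cases hj : j < s + 2 ^ k
    · exact ih s h.1 j h1 hj
    · rw [pow_succ] at h2
      exact ih (s + 2 ^ k) h.2 j (by omega) (by omega)

/-- four copies of the mask -/
def mask4 (D M : ℕ) : ℕ := M ||| (M <<< D) ||| (M <<< (2 * D)) ||| (M <<< (3 * D))

/-- no four term progression with difference `d` -/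
def apD (D M4 M : ℕ) (d : ℕ) : Bool :=
  Nat.beq d 0 || Nat.ble D d ||
    Nat.beq (Nat.land (Nat.land M (Nat.shiftRight M4 d))
      (Nat.land (Nat.shiftRight M4 (2 * d)) (Nat.shiftRight M4 (3 * d)))) 0

lemma mask4_testBit {D M : ℕ} (j : ℕ) (hj : j < 4 * D) (hM : M.testBit (j % D) = true) :
    (mask4 D M).testBit j = true := by
  have hD : 0 < D := by omega
  simp only [mask4, Nat.testBit_or, Nat.testBit_shiftLeft, Bool.or_eq_true, Bool.and_eq_true,
    decide_eq_true_eq]
  have hdiv : j / D < 4 := Nat.div_lt_of_lt_mul (by omega)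
  have hmod := Nat.mod_add_div j D
  interval_cases h : j / D
  · left; left; left
    rw [show j % D = j by omega] at hM
    exact hM
  · left; left; right
    refine ⟨by omega, ?_⟩
    rw [show j - D = j % D by omega]; exact hM
  · left; right
    refine ⟨by omega, ?_⟩
    rw [show j - 2 * D = j % D by omega]; exact hM
  · right
    refine ⟨by omega, ?_⟩
    rw [show j - 3 * D = j % D by omega]; exact hM

lemma apMask_sound {D M k : ℕ} (hk : D ≤ 2 ^ k)
    (h : chkRange (apD D (mask4 D M) M) k 0 = true) {a b c d : ℕ}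
    (ha : M.testBit a = true) (hb : M.testBit b = true) (hc : M.testBit c = true)
    (hd : M.testBit d = true) (hA : a < D) (hB : b < D) (hC : c < D) (hDD : d < D)
    (e1 : ((b : ℕ) : ZMod D) - a = (c : ZMod D) - b)
    (e2 : ((c : ℕ) : ZMod D) - b = (d : ZMod D) - c) : a = b := by
  have : NeZero D := ⟨by omega⟩
  by_contra hab
  set δ := (b + (D - a)) % D with hδ
  have hδD : δ < D := Nat.mod_lt _ (by omega)
  have hca : ((D - a : ℕ) : ZMod D) = -(a : ZMod D) := by
    rw [Nat.cast_sub hA.le]; simp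
  have hδc : (δ : ZMod D) = b - a := by
    rw [hδ, ZMod.natCast_mod]
    push_cast
    rw [hca]; ring
  have hδ0 : δ ≠ 0 := by
    intro h0
    rw [h0] at hδc
    apply hab
    have h1 : ((a : ℕ) : ZMod D) = (b : ZMod D) := by
      simp only [Nat.cast_zero] at hδc
      linear_combination hδc
    have := (ZMod.natCast_eq_natCast_iff' _ _ _).1 h1
    rwa [Nat.mod_eq_of_lt hA, Nat.mod_eq_of_lt hB] at this
  have key := chkRange_sound _ _ _ h δ (by omega) (by omega)
  simp only [apD, Bool.or_eq_true, Nat.ble_eq] at key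
  have key' : Nat.land (Nat.land M (Nat.shiftRight (mask4 D M) δ))
      (Nat.land (Nat.shiftRight (mask4 D M) (2 * δ)) (Nat.shiftRight (mask4 D M) (3 * δ))) = 0 := by
    rcases key with (h1 | h1) | h1
    · exact absurd (Nat.eq_of_beq_eq_true h1) hδ0
    · omega
    · exact Nat.eq_of_beq_eq_true h1
  have key2 : (((M &&& (mask4 D M) >>> δ) &&& ((mask4 D M) >>> (2 * δ) &&&
      (mask4 D M) >>> (3 * δ)))).testBit a = false := by
    have : ((M &&& (mask4 D M) >>> δ) &&& ((mask4 D M) >>> (2 * δ) &&&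
      (mask4 D M) >>> (3 * δ))) = 0 := key'
    rw [this]; simp
  simp only [Nat.testBit_and, Nat.testBit_shiftRight] at key2
  have t1 : (mask4 D M).testBit (δ + a) = true := by
    apply mask4_testBit _ (by omega)
    have : (δ + a) % D = b := by
      have h1 : ((δ + a : ℕ) : ZMod D) = (b : ZMod D) := by push_cast; rw [hδc]; ring
      have := (ZMod.natCast_eq_natCast_iff' _ _ _).1 h1
      rwa [Nat.mod_eq_of_lt hB] at this
    rwa [this]
  have t2 : (mask4 D M).testBit (2 * δ + a) = true := by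
    apply mask4_testBit _ (by omega)
    have : (2 * δ + a) % D = c := by
      have h1 : ((2 * δ + a : ℕ) : ZMod D) = (c : ZMod D) := by
        push_cast; rw [hδc]; linear_combination e1
      have := (ZMod.natCast_eq_natCast_iff' _ _ _).1 h1
      rwa [Nat.mod_eq_of_lt hC] at this
    rwa [this]
  have t3 : (mask4 D M).testBit (3 * δ + a) = true := by
    apply mask4_testBit _ (by omega)
    have : (3 * δ + a) % D = d := by
      have h1 : ((3 * δ + a : ℕ) : ZMod D) = (d : ZMod D) := by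
        push_cast; rw [hδc]; linear_combination 2 * e1 + e2
      have := (ZMod.natCast_eq_natCast_iff' _ _ _).1 h1
      rwa [Nat.mod_eq_of_lt hDD] at this
    rwa [this]
  rw [ha, t1, t2, t3] at key2
  simp at key2

/-- every entry `(class, prefix weight, suffix weight)` has its class in the mask and the weight
prescribed by `f` -/
def chkEnt (M : ℕ) (sf : ℕ → Bool) (f : ℕ → ℕ × ℕ) (E : List (ℕ × (ℕ × ℕ) × (ℕ × ℕ))) : Bool :=
  E.all fun e => Nat.testBit M e.1 &&
    (if sf e.1 then Nat.beq e.2.2.1 (f e.1).1 && Nat.beq e.2.2.2 (f e.1).2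
      else Nat.beq e.2.1.1 (f e.1).1 && Nat.beq e.2.1.2 (f e.1).2)

theorem strong_of_mask (S : List ℕ) (t : ℕ → ℤ × ℤ) (u : ℕ → ℕ × ℕ) (h : ℕ → List ℕ)
    (a b c d : ℤ) (al be D : ℕ) (M k : ℕ) (sf : ℕ → Bool) (f : ℕ → ℕ × ℕ)
    (hD : 0 < D) (hu : ∀ b, 0 < (u b).1 + (u b).2) (hdet : a * d - b * c ≠ 0)
    (h1 : ∀ s ∈ S, h s ≠ [])
    (h2 : ∀ s ∈ S, (((nwt u (h s)).1 : ℤ), ((nwt u (h s)).2 : ℤ)) = lin a b c d (t s))
    (h3 : ∀ s ∈ S, (al * (nwt u (h s)).1 + be * (nwt u (h s)).2) % D = 0)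
    (h4 : ∀ s ∈ S, chkEnt M sf f (entries u al be D (h s)) = true)
    (hk : D ≤ 2 ^ k)
    (h5 : chkRange (apD D (mask4 D M) M) k 0 = true)
    (h7 : sf 0 = false) :
    Strong {s | s ∈ S} t (zw u) h (lin a b c d) (clsm al be D) := by
  have : NeZero D := ⟨by omega⟩
  have hcl : ∀ r : List ℕ, clsm al be D (wt (zw u) r) =
      (((al * (nwt u r).1 + be * (nwt u r).2) % D : ℕ) : ZMod D) := by
    intro r
    rw [wt_zw, ZMod.natCast_mod]
    simp [clsm]
  have hent : ∀ s ∈ S, ∀ r : List ℕ, r <+: h s → r ≠ h s →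
      ((al * (nwt u r).1 + be * (nwt u r).2) % D, nwt u r,
        ((nwt u (h s)).1 - (nwt u r).1, (nwt u (h s)).2 - (nwt u r).2)) ∈
        entries u al be D (h s) := by
    intro s hs r hr hne
    have := mem_prefW u (h s) r 0 0 hr hne
    simp only [zero_add] at this
    rw [entries, List.mem_map]
    exact ⟨_, this, rfl⟩
  have hlt : ∀ r : List ℕ, (al * (nwt u r).1 + be * (nwt u r).2) % D < D :=
    fun r => Nat.mod_lt _ hD
  have hle : ∀ s ∈ S, ∀ r : List ℕ, r <+: h s → (nwt u r).1 ≤ (nwt u (h s)).1 ∧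
      (nwt u r).2 ≤ (nwt u (h s)).2 := by
    rintro s hs r ⟨q, hq⟩
    rw [← hq]
    simp [nwt]
  have h4' : ∀ s ∈ S, ∀ e ∈ entries u al be D (h s), M.testBit e.1 = true ∧
      (sf e.1 = true → e.2.2 = f e.1) ∧ (sf e.1 = false → e.2.1 = f e.1) := by
    intro s hs e he
    have := h4 s hs
    rw [chkEnt, List.all_eq_true] at this
    have h := this e he
    rw [Bool.and_eq_true] at h
    refine ⟨h.1, ?_, ?_⟩
    · intro hsf
      have h' := h.2
      simp only [hsf, if_true, Bool.and_eq_true] at h'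
      exact Prod.ext (Nat.eq_of_beq_eq_true h'.1) (Nat.eq_of_beq_eq_true h'.2)
    · intro hsf
      have h' := h.2
      simp only [hsf, Bool.false_eq_true, if_false, Bool.and_eq_true] at h'
      exact Prod.ext (Nat.eq_of_beq_eq_true h'.1) (Nat.eq_of_beq_eq_true h'.2)
  refine ⟨?_, ?_, lin_inj hdet, ?_, ?_, ?_, ?_⟩
  · intro w hw h0
    rw [wt_zw] at h0
    have e1 : ((nwt u w).1 : ℤ) = 0 := congrArg Prod.fst h0
    have e2 : ((nwt u w).2 : ℤ) = 0 := congrArg Prod.snd h0
    cases w with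
    | nil => exact hw rfl
    | cons x w =>
      have := hu x
      simp only [nwt, List.map_cons, List.sum_cons] at e1 e2
      omega
  · intro s hs; exact h1 s hs
  · intro s hs
    rw [wt_zw]
    exact h2 s hs
  · intro s hs
    rw [hcl, h3 s hs]; simp
  · intro a0 ha0 a1 ha1 a2 ha2 a3 ha3 r0 r1 r2 r3 hr0 hr1 hr2 hr3 e1 e2
    rw [hcl, hcl, hcl] at e1
    rw [hcl, hcl, hcl] at e2
    rw [hcl, hcl]
    have m0 := (h4' a0 ha0 _ (hent a0 ha0 r0 hr0.1 hr0.2)).1
    have m1 := (h4' a1 ha1 _ (hent a1 ha1 r1 hr1.1 hr1.2)).1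
    have m2 := (h4' a2 ha2 _ (hent a2 ha2 r2 hr2.1 hr2.2)).1
    have m3 := (h4' a3 ha3 _ (hent a3 ha3 r3 hr3.1 hr3.2)).1
    have := apMask_sound hk h5 m0 m1 m2 m3 (hlt _) (hlt _) (hlt _) (hlt _) e1 e2
    exact congrArg _ this
  · intro g
    by_cases hg : sf g.val = true
    · right
      refine ⟨?_, ?_⟩
      · rintro rfl
        simp [h7] at hg
      · intro a0 ha0 b0 hb0 r r' hr hr' e1 e2
        rw [hcl] at e1 e2
        have v1 : (al * (nwt u r).1 + be * (nwt u r).2) % D = g.val := by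
          rw [← e1, ZMod.val_natCast, Nat.mod_mod]
        have v2 : (al * (nwt u r').1 + be * (nwt u r').2) % D = g.val := by
          rw [← e2, ZMod.val_natCast, Nat.mod_mod]
        have q1 := (h4' a0 ha0 _ (hent a0 ha0 r hr.1 hr.2)).2.1 (by rw [v1]; exact hg)
        have q2 := (h4' b0 hb0 _ (hent b0 hb0 r' hr'.1 hr'.2)).2.1 (by rw [v2]; exact hg)
        simp only at q1 q2
        rw [v1] at q1
        rw [v2] at q2
        have q := q1.trans q2.symm
        simp only [Prod.mk.injEq] at q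
        have l1 := hle a0 ha0 r hr.1
        have l2 := hle b0 hb0 r' hr'.1
        rw [wt_zw, wt_zw, wt_zw, wt_zw]
        ext
        · simp only [Prod.fst_sub]; omega
        · simp only [Prod.snd_sub]; omega
    · left
      have hg' : sf g.val = false := by simpa using hg
      intro a0 ha0 b0 hb0 r r' hr hr' e1 e2
      rw [hcl] at e1 e2
      have v1 : (al * (nwt u r).1 + be * (nwt u r).2) % D = g.val := by
        rw [← e1, ZMod.val_natCast, Nat.mod_mod]
      have v2 : (al * (nwt u r').1 + be * (nwt u r').2) % D = g.val := by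
        rw [← e2, ZMod.val_natCast, Nat.mod_mod]
      have q1 := (h4' a0 ha0 _ (hent a0 ha0 r hr.1 hr.2)).2.2 (by rw [v1]; exact hg')
      have q2 := (h4' b0 hb0 _ (hent b0 hb0 r' hr'.1 hr'.2)).2.2 (by rw [v2]; exact hg')
      simp only at q1 q2
      rw [v1] at q1
      rw [v2] at q2
      rw [wt_zw, wt_zw, q1.trans q2.symm]

end Pool.Agent.W_MP_c93f48_co
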