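import Pool.Agent.W_MP_c93f48_co.D0123
import Pool.Agent.W_MP_c93f48_co.Fast

set_option autoImplicit false

/-!
A morphism from `{0,1,2,3}` to `{0,1,4}` which preserves additive-cube-freeness, hence additive
cubes are avoidable over `{0,1,4}` unconditionally.
-/

namespace Pool.Agent.W_MP_c93f48_co

/-- morphism `{0,1,2,3} → {0,1,4}` -/
def g014s : ℕ → List ℕ
  | 0 => [4, 0, 0, 1, 4, 1, 0, 4, 1, 1, 4, 0, 0, 1, 1, 0, 0, 4, 0, 1, 1, 0, 1, 4, 4, 0, 0, 1, 0, 0,
      1, 0, 0, 4, 0, 0, 1, 0, 0, 1, 0, 0]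
  | 1 => [4, 0, 0, 1, 4, 1, 0, 4, 1, 1, 4, 0, 0, 1, 1, 0, 0, 4, 0, 1, 1, 0, 1, 4, 4, 0, 0, 1, 0, 0,
      1, 1, 4, 0, 1, 4, 4, 0, 0]
  | 2 => [4, 0, 0, 1, 4, 1, 0, 4, 1, 1, 4, 0, 4, 4, 1, 4, 4, 1, 4, 4, 0, 0, 4, 1, 0, 4, 0, 4, 0, 0,
      1, 0, 0, 1, 0, 0]
  | _ => [4, 0, 0, 1, 4, 1, 0, 4, 1, 1, 4, 0, 4, 4, 1, 4, 4, 1, 4, 4, 0, 0, 4, 1, 1, 4, 4, 0, 1, 4,
      4, 0, 0]

def mask014s : ℕ :=
  0x610038484400040000081060001800007000000020000e61001811c001c08000202000020000073840e0080000e0c0020000000000800000410001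

def suf014s : ℕ :=
  0x610000000000000000000000000000006000000000000e60000000000000800000000000000000000000000000e000000000000000800000000000

def tbl014s : List (ℕ × ℕ × ℕ) :=
  [(0,0,0), (16,10,16), (22,13,24), (47,7,13), (89,20,27), (102,24,51), (103,25,51),
    (109,8,2), (110,7,2), (111,6,2), (131,8,14), (141,15,22), (142,16,22), (143,17,22),
    (150,18,38), (155,20,46), (156,21,46), (157,22,46), (160,28,38), (161,29,38), (162,30,38),
    (185,5,9), (205,16,33), (213,24,33), (231,3,4), (238,1,4), (239,2,4), (240,3,4),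
    (254,11,20), (255,12,20), (256,13,20), (260,14,28), (267,21,28), (268,22,28), (280,25,52),
    (285,6,9), (286,5,9), (289,5,1), (290,4,1), (291,3,1), (309,9,15), (340,31,39), (341,10,6),
    (342,9,6), (363,6,10), (364,7,10), (381,18,26), (382,19,26), (388,19,42), (395,23,50),
    (418,4,5), (434,14,21), (438,15,29), (443,17,37), (446,23,29), (451,25,37), (452,26,37),
    (453,27,37), (464,4,8), (469,2,0), (470,1,0)]

theorem strong014s : Strong {s | s ∈ [0,1,2,3]} tw tw g014s (lin 42 (-3) 45 8)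
    (clsm (1 : ℕ) (177 : ℕ) 471) := by
  have := strong_of_mask [0,1,2,3] tw nw g014s 42 (-3) 45 8 1 177 471 mask014s 9
    (fun c => suf014s.testBit c) (fun c => (tbl014s.lookup c).getD (0, 0))
    (by norm_num) (by intro b; simp [nw]) (by norm_num) (by decide +kernel) (by decide +kernel)
    (by decide +kernel) (by decide +kernel) (by norm_num) (by decide +kernel) (by decide +kernel)
  rwa [zw_nw] at this

theorem unb014s : Unb {s | s ∈ [0, 1, 4]} tw := by
  refine Unb.map strong014s ?_ unb0123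
  show ∀ a ∈ [0,1,2,3], ∀ b ∈ g014s a, b ∈ [0, 1, 4]
  decide +kernel

end Pool.Agent.W_MP_c93f48_co
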