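import Pool.Agent.W_MP_c93f48_co.D0123

set_option autoImplicit false

/-!
Morphisms from `{0,1,2}` to the alphabets `{0,i,j}` which preserve additive-cube-freeness.
-/

namespace Pool.Agent.W_MP_c93f48_co

/-- morphism `{0,1,2} → {0,1,3}` -/
def g013 : ℕ → List ℕ
  | 0 => [0,1,3,3]
  | 1 => [0,1,3,1,1]
  | _ => [0,1,3,0,0,1]

theorem strong013 : Strong {s | s ∈ [0,1,2]} tw tw g013 (lin 4 1 7 (-1))
    (clsm (1 : ℕ) (1 : ℕ) 11) := by
  have := strong_of_check [0,1,2] tw nw g013 4 1 7 (-1) 1 1 11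
    [0, 1, 3, 7, 8, 9]
    [9]
    (by norm_num) (by intro b; simp [nw]) (by norm_num) (by decide) (by decide) (by decide)
    (by decide +kernel) (by decide +kernel) (by decide +kernel) (by decide)
  rwa [zw_nw] at this

theorem unb013 (H : Unb {s | s ∈ [0,1,2]} tw) : Unb {s | s ∈ [0, 1, 3]} tw := by
  refine Unb.map strong013 ?_ H
  show ∀ a ∈ [0,1,2], ∀ b ∈ g013 a, b ∈ [0, 1, 3]
  decide

/-- morphism `{0,1,2} → {0,1,4}` -/
def g014 : ℕ → List ℕ
  | 0 => [1,0,0,4,0]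
  | 1 => [1,1,4,1,1,4,0]
  | _ => [1,1,4,1,4,4,0,4,0]

theorem strong014 : Strong {s | s ∈ [0,1,2]} tw tw g014 (lin 5 2 5 7)
    (clsm (1 : ℕ) (14 : ℕ) 25) := by
  have := strong_of_check [0,1,2] tw nw g014 5 2 5 7 1 14 25
    [0, 2, 5, 9, 12, 15, 16, 17, 24]
    [16, 17, 24]
    (by norm_num) (by intro b; simp [nw]) (by norm_num) (by decide) (by decide) (by decide)
    (by decide +kernel) (by decide +kernel) (by decide +kernel) (by decide)
  rwa [zw_nw] at this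

theorem unb014 (H : Unb {s | s ∈ [0,1,2]} tw) : Unb {s | s ∈ [0, 1, 4]} tw := by
  refine Unb.map strong014 ?_ H
  show ∀ a ∈ [0,1,2], ∀ b ∈ g014 a, b ∈ [0, 1, 4]
  decide

end Pool.Agent.W_MP_c93f48_co
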