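import Pool.Agent.W_MP_c93f48_co.D0123

set_option autoImplicit false

/-!
Morphisms from `{0,1,2}` to the alphabets `{0,i,j}` which preserve additive-cube-freeness.
-/

namespace Pool.Agent.W_MP_c93f48_co

/-- morphism `{0,1,2} → {0,1,5}` -/
def g015 : ℕ → List ℕ
  | 0 => [5,1,5,0,1,1,0,1,1,0]
  | 1 => [5,1,5,0,0,5,0,0]
  | _ => [5,1,5,0,1,5]

theorem strong015 : Strong {s | s ∈ [0,1,2]} tw tw g015 (lin 10 (-2) 15 1)
    (clsm (1 : ℕ) (2 : ℕ) 40) := by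
  have := strong_of_check [0,1,2] tw nw g015 10 (-2) 15 1 1 2 40
    [0, 11, 14, 25, 26, 27, 29, 32, 33, 36, 38, 39]
    [39]
    (by norm_num) (by intro b; simp [nw]) (by norm_num) (by decide) (by decide) (by decide)
    (by decide +kernel) (by decide +kernel) (by decide +kernel) (by decide)
  rwa [zw_nw] at this

theorem unb015 (H : Unb {s | s ∈ [0,1,2]} tw) : Unb {s | s ∈ [0, 1, 5]} tw := by
  refine Unb.map strong015 ?_ H
  show ∀ a ∈ [0,1,2], ∀ b ∈ g015 a, b ∈ [0, 1, 5]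
  decide

/-- morphism `{0,1,2} → {0,2,5}` -/
def g025 : ℕ → List ℕ
  | 0 => [0,2,2,0,2,2,0,2,5,0]
  | 1 => [0,5,0,0,5,2,0,2,5,0]
  | _ => [0,2,2,5,5,2,0,2,5,0]

theorem strong025 : Strong {s | s ∈ [0,1,2]} tw tw g025 (lin 10 0 15 4)
    (clsm (1 : ℕ) (10 : ℕ) 40) := by
  have := strong_of_check [0,1,2] tw nw g025 10 0 15 4 1 10 40
    [0, 1, 3, 4, 6, 7, 12, 13, 14, 22, 25, 28, 39]
    [6, 7, 14, 25, 28, 39]
    (by norm_num) (by intro b; simp [nw]) (by norm_num) (by decide) (by decide) (by decide)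
    (by decide +kernel) (by decide +kernel) (by decide +kernel) (by decide)
  rwa [zw_nw] at this

theorem unb025 (H : Unb {s | s ∈ [0,1,2]} tw) : Unb {s | s ∈ [0, 2, 5]} tw := by
  refine Unb.map strong025 ?_ H
  show ∀ a ∈ [0,1,2], ∀ b ∈ g025 a, b ∈ [0, 2, 5]
  decide

/-- morphism `{0,1,2} → {0,1,6}` -/
def g016 : ℕ → List ℕ
  | 0 => [0,0,1,0,6,6,1,6,6]
  | 1 => [0,1,1,6,1,6,1,1]
  | _ => [0,0,1,0,6,0,1]

theorem strong016 : Strong {s | s ∈ [0,1,2]} tw tw g016 (lin 9 (-1) 26 (-9))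
    (clsm (1 : ℕ) (6 : ℕ) 55) := by
  have := strong_of_check [0,1,2] tw nw g016 9 (-1) 26 (-9) 1 6 55
    [0, 1, 2, 4, 8, 9, 10, 15, 18, 29, 36, 41, 47, 48, 52]
    [48]
    (by norm_num) (by intro b; simp [nw]) (by norm_num) (by decide) (by decide) (by decide)
    (by decide +kernel) (by decide +kernel) (by decide +kernel) (by decide)
  rwa [zw_nw] at this

theorem unb016 (H : Unb {s | s ∈ [0,1,2]} tw) : Unb {s | s ∈ [0, 1, 6]} tw := by
  refine Unb.map strong016 ?_ H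
  show ∀ a ∈ [0,1,2], ∀ b ∈ g016 a, b ∈ [0, 1, 6]
  decide

/-- morphism `{0,1,2} → {0,1,7}` -/
def g017 : ℕ → List ℕ
  | 0 => [1,7,1,7,7,0,0,1,1,0,1,1,0,1,7,1,0,1]
  | 1 => [1,7,1,7,7,0,0,1,1,0,0,7,0,0,7,0]
  | _ => [1,7,1,7,7,0,0,1,7,1,7,1,0,1]

theorem strong017 : Strong {s | s ∈ [0,1,2]} tw tw g017 (lin 18 (-2) 37 2)
    (clsm (1 : ℕ) (56 : ℕ) 110) := by
  have := strong_of_check [0,1,2] tw nw g017 18 (-2) 37 2 1 56 110
    [0, 10, 20, 32, 37, 42, 44, 45, 46, 52, 53, 57, 67, 83, 84, 85, 89, 90, 91, 94, 95, 105, 109]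
    [42, 52, 53, 95, 105]
    (by norm_num) (by intro b; simp [nw]) (by norm_num) (by decide) (by decide) (by decide)
    (by decide +kernel) (by decide +kernel) (by decide +kernel) (by decide)
  rwa [zw_nw] at this

theorem unb017 (H : Unb {s | s ∈ [0,1,2]} tw) : Unb {s | s ∈ [0, 1, 7]} tw := by
  refine Unb.map strong017 ?_ H
  show ∀ a ∈ [0,1,2], ∀ b ∈ g017 a, b ∈ [0, 1, 7]
  decide

/-- morphism `{0,1,2} → {0,2,7}` -/
def g027 : ℕ → List ℕ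
  | 0 => [2,0,0,2,0,0,2,0,7,2,0,2,2,0,2,2,7,2,2,7]
  | 1 => [2,0,0,2,0,0,2,0,7,2,0,7,7,2,2,7]
  | _ => [2,0,0,7,7,0,7,7,0,0,2,7]

theorem strong027 : Strong {s | s ∈ [0,1,2]} tw tw g027 (lin 20 (-4) 41 (-1))
    (clsm (1 : ℕ) (140 : ℕ) 144) := by
  have := strong_of_check [0,1,2] tw nw g027 20 (-4) 41 (-1) 1 140 144
    [0, 27, 32, 33, 34, 41, 59, 68, 75, 81, 82, 85, 86, 88, 94, 95, 101, 112, 127, 128, 132, 133, 134, 137, 138, 139]
    [27, 34, 41, 68]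
    (by norm_num) (by intro b; simp [nw]) (by norm_num) (by decide) (by decide) (by decide)
    (by decide +kernel) (by decide +kernel) (by decide +kernel) (by decide)
  rwa [zw_nw] at this

theorem unb027 (H : Unb {s | s ∈ [0,1,2]} tw) : Unb {s | s ∈ [0, 2, 7]} tw := by
  refine Unb.map strong027 ?_ H
  show ∀ a ∈ [0,1,2], ∀ b ∈ g027 a, b ∈ [0, 2, 7]
  decide

/-- morphism `{0,1,2} → {0,3,7}` -/
def g037 : ℕ → List ℕ
  | 0 => [0,3,3,7,3,3,0,3,3,7,3,7,7]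
  | 1 => [0,3,3,7,0,7,7,0,3,3,0,3,7,3,0]
  | _ => [0,3,3,7,0,7,7,0,3,3,0,0,7,0,0,3,0]

theorem strong037 : Strong {s | s ∈ [0,1,2]} tw tw g037 (lin 13 2 49 (-3))
    (clsm (1 : ℕ) (92 : ℕ) 137) := by
  have := strong_of_check [0,1,2] tw nw g037 13 2 49 (-3) 1 92 137
    [0, 1, 4, 7, 25, 26, 29, 32, 33, 34, 36, 40, 65, 77, 80, 104, 105, 107, 110, 111, 114, 117, 131, 132, 133, 136]
    [133, 136]
    (by norm_num) (by intro b; simp [nw]) (by norm_num) (by decide) (by decide) (by decide)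
    (by decide +kernel) (by decide +kernel) (by decide +kernel) (by decide)
  rwa [zw_nw] at this

theorem unb037 (H : Unb {s | s ∈ [0,1,2]} tw) : Unb {s | s ∈ [0, 3, 7]} tw := by
  refine Unb.map strong037 ?_ H
  show ∀ a ∈ [0,1,2], ∀ b ∈ g037 a, b ∈ [0, 3, 7]
  decide

end Pool.Agent.W_MP_c93f48_co
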