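import Pool.Agent.W_MP_c93f48_co.Affine
import Pool.Agent.W_MP_c93f48_co.D0123

set_option autoImplicit false

namespace Pool.Agent.W_MP_c93f48_co.FourTermAP

/-- Additive cubes are avoidable over the finite alphabet `A` of natural numbers: there is an
infinite word `x` over `A` none of whose factors consists of three consecutive nonempty blocks of
the same length `n` and the same sum. -/
def AdditiveCubesAvoidable (A : Finset ℕ) : Prop :=
  ∃ x : ℕ → ℕ, (∀ i, x i ∈ A) ∧
    ∀ i n : ℕ, 0 < n →
      ¬ (∑ k ∈ Finset.range n, x (i + k) = ∑ k ∈ Finset.range n, x (i + n + k) ∧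
        ∑ k ∈ Finset.range n, x (i + n + k) = ∑ k ∈ Finset.range n, x (i + 2 * n + k))

/-- Additive cubes are avoidable over every finite set of natural numbers that contains a
4-term arithmetic progression. -/
theorem result (A : Finset ℕ) (a d : ℕ) (hd : 1 ≤ d)
    (hA : ({a, a + d, a + 2 * d, a + 3 * d} : Finset ℕ) ⊆ A) : AdditiveCubesAvoidable A := by
  obtain ⟨x, hx, hc⟩ := exists_noCube {0, 1, 2, 3} (by
    have h := unb0123
    have e : {s | s ∈ [0, 1, 2, 3]} = (↑({0, 1, 2, 3} : Finset ℕ) : Set ℕ) := by
      ext s; simp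
    rwa [e] at h)
  refine ⟨fun i => a + d * x i, fun i => hA ?_, hc.affine a d hd⟩
  have := hx i
  simp only [Finset.mem_insert, Finset.mem_singleton] at this ⊢
  rcases this with h | h | h | h <;> rw [h] <;> omega

end Pool.Agent.W_MP_c93f48_co.FourTermAP
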