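import Pool.Agent.W_MP_c93f48_co.Unb
import Pool.Agent.W_MP_c93f48_co.Mask

set_option autoImplicit false

namespace Pool.Agent.W_MP_c93f48_co

variable {α β μ ν M M' G : Type*}

/-- Marked cube-freeness: there are no three consecutive blocks of the same weight such that the
first letters of the three blocks and the letter following them all carry the same mark. -/
def MCF [AddCommMonoid M] (t : α → M) (m : α → ν) (w : List α) : Prop :=
  ∀ u a1 b1 a2 b2 a3 b3 a4 v, w = u ++ (a1 :: b1) ++ (a2 :: b2) ++ (a3 :: b3) ++ (a4 :: v) →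
    m a1 = m a2 → m a2 = m a3 → m a3 = m a4 →
    ¬ (wt t (a1 :: b1) = wt t (a2 :: b2) ∧ wt t (a2 :: b2) = wt t (a3 :: b3))

/-- Image of a word under a substitution of pairs of consecutive letters. -/
def pairImg (B : α → α → List β) : List α → List β
  | [] => []
  | [_] => []
  | x :: y :: w => B x y ++ pairImg B (y :: w)

section lemmas

variable (B : α → α → List β)

@[simp] lemma pairImg_nil : pairImg B [] = [] := rfl
@[simp] lemma pairImg_single (x : α) : pairImg B [x] = [] := rfl
@[simp] lemma pairImg_cons_cons (x y : α) (w : List α) :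
    pairImg B (x :: y :: w) = B x y ++ pairImg B (y :: w) := rfl

lemma pairImg_snoc (p : List α) (x y : α) :
    pairImg B (p ++ [x, y]) = pairImg B (p ++ [x]) ++ B x y := by
  induction p with
  | nil => simp
  | cons a p ih =>
    cases p with
    | nil => simp
    | cons b p =>
      simp only [List.cons_append, pairImg_cons_cons] at ih ⊢
      rw [ih, List.append_assoc]

lemma pairImg_append (p : List α) (x : α) (q : List α) :
    pairImg B (p ++ x :: q) = pairImg B (p ++ [x]) ++ pairImg B (x :: q) := by
  induction p with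
  | nil => simp
  | cons a p ih =>
    cases p with
    | nil => simp
    | cons b p =>
      simp only [List.cons_append, pairImg_cons_cons] at ih ⊢
      rw [ih, List.append_assoc]

/-- Every position of the image lies in the block of some pair. -/
lemma pairImg_split : ∀ (w : List α) (P : List β) (b : β) (Q : List β),
    pairImg B w = P ++ b :: Q → ∃ p x y q r r', w = p ++ x :: y :: q ∧ B x y = r ++ b :: r' ∧
      P = pairImg B (p ++ [x]) ++ r := by
  intro w
  induction w with
  | nil => intro P b Q h; simp at h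
  | cons x w ih =>
    intro P b Q h
    cases w with
    | nil => simp at h
    | cons y w =>
      rw [pairImg_cons_cons] at h
      rcases List.append_eq_append_iff.1 h with ⟨P', hP, hQ⟩ | ⟨P', hP, hQ⟩
      · -- P = B x y ++ P'
        obtain ⟨p, x', y', q, r, r', h1, h2, h3⟩ := ih P' b Q hQ
        refine ⟨x :: p, x', y', q, r, r', by rw [h1]; rfl, h2, ?_⟩
        rw [hP, h3]
        cases p with
        | nil =>
          simp only [List.nil_append, List.cons.injEq] at h1
          obtain ⟨rfl, -⟩ := h1
          simp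
        | cons z p =>
          simp only [List.cons_append, List.cons.injEq] at h1
          obtain ⟨rfl, -⟩ := h1
          simp
      · -- B x y = P ++ P'
        cases P' with
        | nil =>
          simp only [List.append_nil] at hP
          simp only [List.nil_append] at hQ
          obtain ⟨p, x', y', q, r, r', h1, h2, h3⟩ := ih [] b Q (by simpa using hQ.symm)
          refine ⟨x :: p, x', y', q, r, r', by rw [h1]; rfl, h2, ?_⟩
          have e : P = B x y ++ [] := by simp [hP]
          rw [e, h3]
          cases p with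
          | nil =>
            simp only [List.nil_append, List.cons.injEq] at h1
            obtain ⟨rfl, -⟩ := h1
            simp
          | cons z p =>
            simp only [List.cons_append, List.cons.injEq] at h1
            obtain ⟨rfl, -⟩ := h1
            simp
        | cons c P' =>
          simp only [List.cons_append, List.cons.injEq] at hQ
          obtain ⟨rfl, hQ⟩ := hQ
          exact ⟨[], x, y, w, P, P', rfl, hP, by simp⟩

end lemmas

/-- The data of a substitution of pairs that transports marked cube-freeness. -/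
structure Cross [AddCommGroup M] [AddCommGroup M'] [AddCommGroup G]
    (t : α → M) (u : β → M') (mk : β → μ) (B : α → α → List β) (s : α → M')
    (N : M →+ M') (cls : M' →+ G) : Prop where
  pos : ∀ b : β, ∀ v : List β, wt u (b :: v) ≠ 0
  inj : Function.Injective N
  wth : ∀ x y, s x + wt u (B x y) = N (t x) + s y
  clsh : ∀ x, cls (N (t x)) = 0
  ap : ∀ x0 y0 x1 y1 x2 y2 x3 y3 : α, ∀ r0 r1 r2 r3 : List β, ∀ b0 b1 b2 b3 : β,
    ∀ q0 q1 q2 q3 : List β,
    B x0 y0 = r0 ++ b0 :: q0 → B x1 y1 = r1 ++ b1 :: q1 →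
    B x2 y2 = r2 ++ b2 :: q2 → B x3 y3 = r3 ++ b3 :: q3 →
    mk b0 = mk b1 → mk b1 = mk b2 → mk b2 = mk b3 →
    cls (s x1 + wt u r1) - cls (s x0 + wt u r0) = cls (s x2 + wt u r2) - cls (s x1 + wt u r1) →
    cls (s x2 + wt u r2) - cls (s x1 + wt u r1) = cls (s x3 + wt u r3) - cls (s x2 + wt u r2) →
    cls (s x0 + wt u r0) = cls (s x1 + wt u r1)
  uniq : ∀ x y x' y' : α, ∀ r r' : List β, ∀ b b' : β, ∀ q q' : List β,
    B x y = r ++ b :: q → B x' y' = r' ++ b' :: q' → mk b = mk b' →
    cls (s x + wt u r) = cls (s x' + wt u r') → x = x' ∧ s x + wt u r = s x' + wt u r'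

section main

variable [AddCommGroup M] [AddCommGroup M'] [AddCommGroup G]
variable {t : α → M} {u : β → M'} {mk : β → μ} {B : α → α → List β} {s : α → M'}
  {N : M →+ M'} {cls : M' →+ G}

lemma Cross.wt_pairImg (hc : Cross t u mk B s N cls) (a : α) : ∀ (p : List α) (x : α),
    s ((p ++ [x]).headD a) + wt u (pairImg B (p ++ [x])) = N (wt t p) + s x := by
  intro p
  induction p using List.reverseRecOn with
  | nil => intro x; simp
  | append_singleton p z ih =>
    intro x
    have e1 : p ++ [z] ++ [x] = p ++ [z, x] := by simp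
    have e2 : (p ++ [z, x]).headD a = (p ++ [z]).headD a := by
      cases p <;> simp
    rw [e1, e2, pairImg_snoc, wt_append, ← add_assoc, ih z, wt_append, map_add]
    have := hc.wth z x
    simp only [wt_cons, wt_nil, add_zero]
    rw [add_assoc, this, ← add_assoc]

theorem Cross.preserves (hc : Cross t u mk B s N cls) (w : List α)
    (hw : MCF t (id : α → α) w) : MCF u mk (pairImg B w) := by
  intro U a1 b1 a2 b2 a3 b3 a4 V heq m12 m23 m34 ⟨h12, h23⟩
  -- the four positions
  obtain ⟨p1, x1, y1, q1, r1, r1', e1, f1, g1⟩ := pairImg_split B w U a1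
    (b1 ++ (a2 :: b2) ++ (a3 :: b3) ++ (a4 :: V)) (by rw [heq]; simp)
  obtain ⟨p2, x2, y2, q2, r2, r2', e2, f2, g2⟩ := pairImg_split B w (U ++ (a1 :: b1)) a2
    (b2 ++ (a3 :: b3) ++ (a4 :: V)) (by rw [heq]; simp)
  obtain ⟨p3, x3, y3, q3, r3, r3', e3, f3, g3⟩ := pairImg_split B w
    (U ++ (a1 :: b1) ++ (a2 :: b2)) a3 (b3 ++ (a4 :: V)) (by rw [heq]; simp)
  obtain ⟨p4, x4, y4, q4, r4, r4', e4, f4, g4⟩ := pairImg_split B w
    (U ++ (a1 :: b1) ++ (a2 :: b2) ++ (a3 :: b3)) a4 V (by rw [heq])
  -- common head
  have head : ∀ (p : List α) (x y : α) (q : List α), w = p ++ x :: y :: q →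
      (p ++ [x]).headD x1 = w.headD x1 := by
    intro p x y q h
    rw [h]
    cases p <;> simp
  set c0 := s (w.headD x1) with hc0
  -- weights of the four positions
  have W : ∀ (p : List α) (x y : α) (q : List α) (r : List β), w = p ++ x :: y :: q →
      c0 + wt u (pairImg B (p ++ [x]) ++ r) = N (wt t p) + (s x + wt u r) := by
    intro p x y q r h
    rw [wt_append, ← add_assoc, hc0, ← head p x y q h, hc.wt_pairImg x1 p x, add_assoc]
  have w1 := W p1 x1 y1 q1 r1 e1
  have w2 := W p2 x2 y2 q2 r2 e2
  have w3 := W p3 x3 y3 q3 r3 e3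
  have w4 := W p4 x4 y4 q4 r4 e4
  rw [← g1] at w1
  rw [← g2] at w2
  rw [← g3] at w3
  rw [← g4] at w4
  set ρ1 := s x1 + wt u r1 with hρ1
  set ρ2 := s x2 + wt u r2 with hρ2
  set ρ3 := s x3 + wt u r3 with hρ3
  set ρ4 := s x4 + wt u r4 with hρ4
  set X := wt u (a1 :: b1) with hX
  rw [wt_append, ← hX] at w2
  rw [wt_append, wt_append, ← h12, ← hX] at w3
  rw [wt_append, wt_append, wt_append, ← h23, ← h12, ← hX] at w4
  have clN : ∀ p : List α, cls (N (wt t p)) = 0 := by
    intro p
    induction p with
    | nil => simp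
    | cons z p ih => rw [wt_cons, map_add, map_add, hc.clsh, ih, add_zero]
  have k1 : cls ρ1 = cls (c0 + wt u U) := by
    have := congrArg cls w1
    rw [map_add cls (N (wt t p1)), clN, zero_add] at this
    exact this.symm
  have k2 : cls ρ2 = cls (c0 + wt u U) + cls X := by
    have := congrArg cls w2
    rw [map_add cls (N (wt t p2)), clN, zero_add] at this
    rw [← this, ← map_add, add_assoc]
  have k3 : cls ρ3 = cls (c0 + wt u U) + cls X + cls X := by
    have := congrArg cls w3
    rw [map_add cls (N (wt t p3)), clN, zero_add] at this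
    rw [← this, ← map_add, ← map_add]
    congr 1; abel
  have k4 : cls ρ4 = cls (c0 + wt u U) + cls X + cls X + cls X := by
    have := congrArg cls w4
    rw [map_add cls (N (wt t p4)), clN, zero_add] at this
    rw [← this, ← map_add, ← map_add, ← map_add]
    congr 1; abel
  have hcl := hc.ap x1 y1 x2 y2 x3 y3 x4 y4 r1 r2 r3 r4 a1 a2 a3 a4 r1' r2' r3' r4' f1 f2 f3 f4
    m12 m23 m34 (by rw [← hρ1, ← hρ2, ← hρ3, k1, k2, k3]; abel)
    (by rw [← hρ2, ← hρ3, ← hρ4, k2, k3, k4]; abel)
  rw [← hρ1, ← hρ2, k1, k2] at hcl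
  have hX0 : cls X = 0 := by simpa using hcl.symm
  have u2 := hc.uniq x1 y1 x2 y2 r1 r2 a1 a2 r1' r2' f1 f2 m12
    (by rw [← hρ1, ← hρ2, k1, k2, hX0]; simp)
  have u3 := hc.uniq x2 y2 x3 y3 r2 r3 a2 a3 r2' r3' f2 f3 m23
    (by rw [← hρ2, ← hρ3, k2, k3, hX0]; simp)
  have u4 := hc.uniq x3 y3 x4 y4 r3 r4 a3 a4 r3' r4' f3 f4 m34
    (by rw [← hρ3, ← hρ4, k3, k4, hX0]; simp)
  obtain ⟨rfl, v2⟩ := u2
  obtain ⟨rfl, v3⟩ := u3
  obtain ⟨rfl, v4⟩ := u4
  rw [← hρ1, ← hρ2] at v2
  rw [← hρ2, ← hρ3] at v3
  rw [← hρ3, ← hρ4] at v4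
  -- weight increments
  have d2 : N (wt t p2) - N (wt t p1) = X := by
    have : c0 + (wt u U + X) = (c0 + wt u U) + X := by abel
    rw [this, w1, v2] at w2
    have h : N (wt t p2) = N (wt t p1) + X := by
      have := congrArg (fun z => z - ρ2) w2
      simp only [add_sub_cancel_right] at this
      rw [← this]; abel
    rw [h]; abel
  have d3 : N (wt t p3) - N (wt t p2) = X := by
    have e : c0 + (wt u U + X + X) = (c0 + (wt u U + X)) + X := by abel
    rw [e, w2, v3] at w3
    have h : N (wt t p3) = N (wt t p2) + X := by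
      have := congrArg (fun z => z - ρ3) w3
      simp only [add_sub_cancel_right] at this
      rw [← this]; abel
    rw [h]; abel
  have d4 : N (wt t p4) - N (wt t p3) = X := by
    have e : c0 + (wt u U + X + X + X) = (c0 + (wt u U + X + X)) + X := by abel
    rw [e, w3, v4] at w4
    have h : N (wt t p4) = N (wt t p3) + X := by
      have := congrArg (fun z => z - ρ4) w4
      simp only [add_sub_cancel_right] at this
      rw [← this]; abel
    rw [h]; abel
  have hXne : X ≠ 0 := hc.pos a1 b1
  -- nesting
  have nest : ∀ (P P' : List β) (p p' : List α) (x y y' : α) (q q' : List α) (r r' : List β)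
      (b b' : β) (z z' : List β),
      w = p ++ x :: y :: q → w = p' ++ x :: y' :: q' → B x y = r ++ b :: z →
      B x y' = r' ++ b' :: z' → P = pairImg B (p ++ [x]) ++ r → P' = pairImg B (p' ++ [x]) ++ r' →
      P.length ≤ P'.length → N (wt t p') - N (wt t p) = X →
      ∃ c, p' = p ++ x :: c ∧ wt t (x :: c) = wt t p' - wt t p := by
    intro P P' p p' x y y' q q' r r' b b' z z' h1 h2 h3 h4 h5 h6 hlen hN
    have hne : wt t p' ≠ wt t p := by
      intro h
      rw [h, sub_self] at hN
      exact hXne hN.symm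
    rcases List.append_eq_append_iff.1 (h1.symm.trans h2) with ⟨c, hc1, hc2⟩ | ⟨c, hc1, hc2⟩
    · -- p' = p ++ c
      cases c with
      | nil => exact absurd (by rw [hc1, List.append_nil]) hne
      | cons k c =>
        simp only [List.cons_append, List.cons.injEq] at hc2
        obtain ⟨rfl, -⟩ := hc2
        refine ⟨c, hc1, ?_⟩
        rw [hc1, wt_append]; abel
    · -- p = p' ++ c
      exfalso
      cases c with
      | nil => exact absurd (by rw [hc1, List.append_nil]) hne
      | cons k c =>
        simp only [List.cons_append, List.cons.injEq] at hc2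
        obtain ⟨rfl, hc2⟩ := hc2
        -- `p' ++ [x, y']` is a beginning of `p ++ [x]`
        have key : ∃ T, pairImg B (p ++ [x]) = pairImg B (p' ++ [x, y']) ++ T := by
          cases c with
          | nil =>
            simp only [List.nil_append, List.cons.injEq] at hc2
            obtain ⟨rfl, -⟩ := hc2
            refine ⟨[], ?_⟩
            rw [hc1]; simp
          | cons l c =>
            simp only [List.cons_append, List.cons.injEq] at hc2
            obtain ⟨rfl, -⟩ := hc2
            refine ⟨pairImg B (y' :: (c ++ [x])), ?_⟩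
            have := pairImg_append B (p' ++ [x]) y' (c ++ [x])
            rw [hc1]
            simpa using this
        obtain ⟨T, hT⟩ := key
        rw [pairImg_snoc] at hT
        have l1 : P.length = (pairImg B (p ++ [x])).length + r.length := by rw [h5]; simp
        have l2 : P'.length = (pairImg B (p' ++ [x])).length + r'.length := by rw [h6]; simp
        have l3 : (pairImg B (p ++ [x])).length =
            (pairImg B (p' ++ [x])).length + (B x y').length + T.length := by rw [hT]; simp; omega
        have l4 : (B x y').length = r'.length + 1 + z'.length := by rw [h4]; simp; omega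
        omega
  obtain ⟨c1, n1, n1'⟩ := nest _ _ p1 p2 x1 y1 y2 q1 q2 r1 r2 a1 a2 r1' r2' e1 e2 f1 f2 g1 g2
    (by simp) d2
  obtain ⟨c2, n2, n2'⟩ := nest _ _ p2 p3 x1 y2 y3 q2 q3 r2 r3 a2 a3 r2' r3' e2 e3 f2 f3 g2 g3
    (by simp) d3
  obtain ⟨c3, n3, n3'⟩ := nest _ _ p3 p4 x1 y3 y4 q3 q4 r3 r4 a3 a4 r3' r4' e3 e4 f3 f4 g3 g4
    (by simp) d4
  refine hw p1 x1 c1 x1 c2 x1 c3 x1 (y4 :: q4) ?_ rfl rfl rfl ⟨?_, ?_⟩
  · rw [← n1, ← n2, ← n3]; exact e4
  · rw [n1', n2']
    exact hc.inj (by rw [map_sub, map_sub, d2, d3])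
  · rw [n2', n3']
    exact hc.inj (by rw [map_sub, map_sub, d3, d4])

end main

end Pool.Agent.W_MP_c93f48_co
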