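import Pool.Agent.W_MP_c93f48_co.CrossCheck

set_option autoImplicit false

namespace Pool.Agent.W_MP_c93f48_co

/-- natural weight of a binary letter -/
def nB (b : Bool) : ℕ × ℕ := (1, b.toNat)

/-- the binary substitution `0 ↦ 01000110100`, `1 ↦ 11010011101` -/
def gB : Bool → List Bool
  | false => [false, true, false, false, false, true, true, false, true, false, false]
  | true => [true, true, false, true, false, false, true, true, true, false, true]

/-- classes of the positions followed by the letter `m` -/
def clB : ℕ → List ℕ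
  | 0 => [0, 8, 10, 14, 15, 17, 18, 19, 26, 29, 31]
  | _ => [0, 1, 2, 5, 12, 13, 16, 20, 21, 25, 28]

theorem crossB : Cross tB (zg nB) Bool.toNat (fun x _ => gB x) (fun _ => (((0 : ℕ) : ℤ), ((0 : ℕ) : ℤ)))
    (lin 11 0 4 3) (clsm (2 : ℕ) (11 : ℕ) 33) :=
  cross_of_check nB Bool.toNat (fun _ => (0, 0)) (fun x _ => gB x) 11 0 4 3 2 11 33 clB [0, 1]
    (by norm_num) (by intro b; simp [nB]) (by norm_num) (by decide) (by decide)
    (by decide +kernel) (by decide +kernel) (by decide +kernel)

lemma zg_nB : zg nB = tB := by
  funext b; cases b <;> simp [zg, nB, tB]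

lemma MCF.of_mark {α ν M : Type*} [AddCommMonoid M] {t : α → M} {m : α → ν} {w : List α}
    (h : MCF t m w) : MCF t (id : α → α) w := by
  intro u a1 b1 a2 b2 a3 b3 a4 v hw h1 h2 h3
  exact h u a1 b1 a2 b2 a3 b3 a4 v hw (congrArg m h1) (congrArg m h2) (congrArg m h3)

lemma length_pairImg {α β : Type*} (B : α → α → List β) (k : ℕ)
    (hB : ∀ x y, k ≤ (B x y).length) : ∀ w : List α, k * (w.length - 1) ≤ (pairImg B w).length := by
  intro w
  induction w with
  | nil => simp
  | cons x w ih =>
    cases w with
    | nil => simp
    | cons y w =>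
      rw [pairImg_cons_cons, List.length_append]
      simp only [List.length_cons, Nat.add_sub_cancel] at ih ⊢
      have := hB x y
      calc k * (w.length + 1) = k + k * w.length := by ring
        _ ≤ _ := by omega

/-- Arbitrarily long binary words that are marked cube-free. -/
theorem unbB : ∀ n : ℕ, ∃ w : List Bool, n ≤ w.length ∧ MCF tB (id : Bool → Bool) w := by
  have key : ∀ n : ℕ, ∃ w : List Bool, n + 2 ≤ w.length ∧ MCF tB (id : Bool → Bool) w := by
    intro n
    induction n with
    | zero =>
      refine ⟨[false, true], by simp, ?_⟩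
      intro u a1 b1 a2 b2 a3 b3 a4 v hw
      have := congrArg List.length hw
      simp at this
      omega
    | succ n ih =>
      obtain ⟨w, hl, hw⟩ := ih
      refine ⟨pairImg (fun x _ => gB x) w, ?_, ?_⟩
      · have := length_pairImg (fun x (_ : Bool) => gB x) 11 (by intro x y; cases x <;> simp [gB]) w
        omega
      · have := (crossB.preserves w hw).of_mark
        rwa [zg_nB] at this
  intro n
  obtain ⟨w, hl, hw⟩ := key n
  exact ⟨w, by omega, hw⟩

end Pool.Agent.W_MP_c93f48_co
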