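import Pool.Agent.W_MP_c93f48_co.D0123
import Pool.Agent.W_MP_c93f48_co.Check3

set_option autoImplicit false

namespace Pool.Agent.W_MP_c93f48_co

/-- morphism from `{0,1,2,3}` to words over three letters `0, 1, 2`; every image has length 33 and
contains the letter `2` ten times -/
def hU : ℕ → List ℕ
  | 0 =>
    [0, 0, 1, 0, 2, 0, 0, 2, 0, 0, 2, 1, 0, 0, 2, 0, 0, 2, 2, 1, 0, 2, 0, 0, 2, 0, 0, 2, 1, 1,
     0, 0, 2]
  | 1 =>
    [0, 0, 1, 0, 2, 1, 2, 1, 1, 0, 2, 1, 0, 0, 2, 0, 0, 2, 2, 1, 0, 2, 0, 0, 2, 0, 0, 2, 1, 1,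
     0, 0, 2]
  | 2 =>
    [0, 0, 1, 0, 2, 0, 0, 2, 2, 1, 2, 2, 0, 1, 2, 1, 1, 2, 1, 1, 0, 1, 1, 0, 2, 0, 0, 2, 1, 1,
     0, 0, 2]
  | _ =>
    [2, 1, 2, 0, 2, 1, 1, 0, 1, 1, 2, 2, 0, 1, 2, 1, 1, 2, 1, 1, 0, 1, 1, 0, 2, 0, 0, 2, 1, 1,
     0, 0, 2]

/-- weight (length, number of letters 1, number of letters 2) -/
def nU (b : ℕ) : ℕ × ℕ × ℕ := (1, if b = 1 then 1 else 0, if b = 2 then 1 else 0)

/-- classes of the proper beginnings of the images -/
def clU : List ℕ :=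
  [0, 6, 12, 14, 23, 26, 37, 41, 47, 53, 55, 61, 64, 67, 75, 81, 125, 127, 131, 133, 137, 156,
   163, 172, 178, 186, 192, 197, 201, 203, 217, 224, 241, 253, 264, 267, 288, 293, 294, 300,
   316, 325, 339, 348, 354, 363, 377, 378, 384, 390, 392, 398, 401, 404, 413, 419, 425, 427]

/-- classes of suffix type -/
def sufU : List ℕ :=
  [14, 26, 37, 55, 61, 67, 125, 127, 131, 133, 137, 156, 163, 186, 192, 197, 203, 241, 253,
   264, 267, 288, 293, 294, 300, 316, 339, 363, 384, 390, 392, 398, 401, 404, 413, 419, 425,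
   427]

theorem strongU : Strong {s | s ∈ [0,1,2,3]} tw (zw3 nU) hU (lin3 33 0 5 3 10 0)
    (clsm3 (6 : ℕ) (154 : ℕ) (319 : ℕ) 462) :=
  strong_of_check3 [0,1,2,3] tw nU hU 33 0 5 3 10 0 6 154 319 462 clU sufU
    (by norm_num) (by intro b; simp [nU]) (by norm_num) (by decide) (by decide +kernel)
    (by decide +kernel) (by decide +kernel)
    (chkAP_of_mask (m := 434604683260170281473417428290979351802407644835181237443211948182298274891664875912977813635822864214023440797940335955819909185) (by decide +kernel) (by decide +kernel))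
    (by decide +kernel) (by decide)

end Pool.Agent.W_MP_c93f48_co
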