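import Pool.Agent.W_MP_c93f48_co.Check

set_option autoImplicit false

namespace Pool.Agent.W_MP_c93f48_co

variable {α β M M' G : Type*}

/-- There are arbitrarily long cube-free words over `S`. -/
def Unb [AddCommMonoid M] (S : Set α) (t : α → M) : Prop :=
  ∀ n : ℕ, ∃ w : List α, (∀ a ∈ w, a ∈ S) ∧ n ≤ w.length ∧ CF t w

variable [AddCommGroup M] [AddCommGroup M'] [AddCommGroup G]

lemma length_flatMap_ge (h : α → List β) (k : ℕ) :
    ∀ w : List α, (∀ a ∈ w, k ≤ (h a).length) → k * w.length ≤ (w.flatMap h).length := by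
  intro w
  induction w with
  | nil => intro _; simp
  | cons a w ih =>
    intro hw
    rw [List.flatMap_cons, List.length_append, List.length_cons]
    have h1 := hw a (by simp)
    have h2 := ih (fun b hb => hw b (List.mem_cons_of_mem _ hb))
    calc k * (w.length + 1) = k + k * w.length := by ring
      _ ≤ _ := by omega

theorem Unb.map {S : Set α} {S' : Set β} {t : α → M} {u : β → M'} {h : α → List β}
    {N : M →+ M'} {cls : M' →+ G} (hs : Strong S t u h N cls)
    (hS : ∀ a ∈ S, ∀ b ∈ h a, b ∈ S') (H : Unb S t) : Unb S' u := by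
  intro n
  obtain ⟨w, hw, hl, hcf⟩ := H n
  refine ⟨w.flatMap h, ?_, ?_, hs.preserves w hw hcf⟩
  · intro b hb
    obtain ⟨a, ha, hb'⟩ := List.mem_flatMap.1 hb
    exact hS a (hw a ha) b hb'
  · have := length_flatMap_ge h 1 w (fun a ha =>
      List.length_pos_of_ne_nil (hs.ne a (hw a ha)))
    omega

theorem Unb.self {S : Set α} {t : α → M} {g : α → List α}
    {N : M →+ M} {cls : M →+ G} (hs : Strong S t t g N cls)
    (hS : ∀ a ∈ S, ∀ b ∈ g a, b ∈ S) (h2 : ∀ a ∈ S, 2 ≤ (g a).length)
    (hne : S.Nonempty) : Unb S t := by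
  obtain ⟨a0, ha0⟩ := hne
  have key : ∀ n : ℕ, ∃ w : List α, (∀ a ∈ w, a ∈ S) ∧ 2 ^ n ≤ w.length ∧ CF t w := by
    intro n
    induction n with
    | zero => exact ⟨[a0], by simpa using ha0, by simp, CF.singleton hs.pos a0⟩
    | succ n ih =>
      obtain ⟨w, hw, hl, hcf⟩ := ih
      refine ⟨w.flatMap g, ?_, ?_, hs.preserves w hw hcf⟩
      · intro b hb
        obtain ⟨a, ha, hb'⟩ := List.mem_flatMap.1 hb
        exact hS a (hw a ha) b hb'
      · have := length_flatMap_ge g 2 w (fun a ha => h2 a (hw a ha))
        rw [pow_succ]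
        omega
  intro n
  obtain ⟨w, hw, hl, hcf⟩ := key n
  exact ⟨w, hw, (Nat.lt_two_pow_self).le.trans hl, hcf⟩

/-- Compactness: arbitrarily long cube-free words over a finite alphabet give an infinite one. -/
theorem exists_infinite (A : Finset ℕ) (t : ℕ → M) (H : Unb (↑A : Set ℕ) t) :
    ∃ x : ℕ → ℕ, (∀ i, x i ∈ A) ∧ ∀ n, CF t ((List.range n).map x) := by
  classical
  let K : ℕ → Set (ℕ → A) := fun n => {x | CF t ((List.range n).map fun i => (x i : ℕ))}
  have hmono : ∀ i, K (i + 1) ⊆ K i := by
    intro i x hx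
    refine CF.pre hx ?_
    rw [List.range_succ, List.map_append]
    exact List.prefix_append _ _
  have hne : ∀ i, (K i).Nonempty := by
    intro n
    obtain ⟨w, hw, hl, hcf⟩ := H (n + 1)
    have h0 : 0 < w.length := by omega
    refine ⟨fun i => if hi : i < w.length then ⟨w[i], hw _ (List.getElem_mem hi)⟩ else
      ⟨w[0], hw _ (List.getElem_mem h0)⟩, ?_⟩
    refine CF.pre hcf ?_
    have : ((List.range n).map fun i => (((if hi : i < w.length then
        (⟨w[i], hw _ (List.getElem_mem hi)⟩ : A) else
        ⟨w[0], hw _ (List.getElem_mem h0)⟩) : A) : ℕ)) = w.take n := by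
      apply List.ext_getElem
      · simp; omega
      · intro i h1 h2
        simp only [List.length_map, List.length_range] at h1
        have : i < w.length := by omega
        simp [this]
    rw [this]
    exact List.take_prefix _ _
  have hcl : ∀ i, IsClosed (K i) := by
    intro n
    let r : (ℕ → A) → (Fin n → A) := fun x i => x i
    have hr : Continuous r := by fun_prop
    have : K n = r ⁻¹' {v | CF t ((List.finRange n).map fun i => (v i : ℕ))} := by
      ext x
      simp only [K, r, Set.mem_ofPred_eq, Set.mem_preimage]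
      have : ((List.range n).map fun i => (x i : ℕ)) =
          ((List.finRange n).map fun i : Fin n => (x i : ℕ)) := by
        apply List.ext_getElem
        · simp
        · intro i h1 h2; simp
      rw [this]
    rw [this]
    exact (isClosed_discrete _).preimage hr
  obtain ⟨x, hx⟩ := IsCompact.nonempty_iInter_of_sequence_nonempty_isCompact_isClosed K hmono hne
    (hcl 0).isCompact hcl
  refine ⟨fun i => x i, fun i => (x i).2, fun n => ?_⟩
  exact Set.mem_iInter.1 hx n

/-- weight of the letter `a` for additive powers: `(1, a)` -/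
def tw (a : ℕ) : ℤ × ℤ := (1, (a : ℤ))

lemma wt_tw_map_range (f : ℕ → ℕ) (n : ℕ) :
    wt tw ((List.range n).map f) = ((n : ℤ), ((∑ k ∈ Finset.range n, f k : ℕ) : ℤ)) := by
  induction n with
  | zero => simp [Prod.ext_iff]
  | succ n ih =>
    rw [List.range_succ, List.map_append, wt_append, ih, Finset.sum_range_succ]
    ext <;> simp [tw]

/-- From list-cube-freeness to the statement about sums. -/
theorem no_cube (x : ℕ → ℕ) (hx : ∀ n, CF tw ((List.range n).map x)) (i n : ℕ) (hn : 0 < n) :
    ¬ (∑ k ∈ Finset.range n, x (i + k) = ∑ k ∈ Finset.range n, x (i + n + k) ∧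
       ∑ k ∈ Finset.range n, x (i + n + k) = ∑ k ∈ Finset.range n, x (i + 2 * n + k)) := by
  rintro ⟨h1, h2⟩
  refine hx (i + n + n + n) ((List.range i).map x) ((List.range n).map fun k => x (i + k))
    ((List.range n).map fun k => x (i + n + k)) ((List.range n).map fun k => x (i + 2 * n + k)) []
    ?_ ?_ ⟨?_, ?_⟩
  · rw [List.range_add, List.range_add, List.range_add]
    simp only [List.map_append, List.map_map, List.append_nil]
    congr 1
    apply List.map_congr_left
    intro k _
    simp only [Function.comp]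
    congr 1
    ring
  · simp; omega
  · rw [wt_tw_map_range, wt_tw_map_range, h1]
  · rw [wt_tw_map_range, wt_tw_map_range, h2]

end Pool.Agent.W_MP_c93f48_co
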