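import Pool.Agent.W_MP_c93f48_co.D0123
import Pool.Agent.W_MP_c93f48_co.Affine
import Pool.Agent.W_MP_c93f48_co.Fast

set_option autoImplicit false

/-!
One word which is additive-cube-free over `{0, i, j}` for all coprime `i < j`, `j ≥ 5`: the letter
`530` (later replaced by the middle letter `i`) is so well distributed that adjacent blocks of equal
length differ by at most `4` in the number of its occurrences.
-/

namespace Pool.Agent.W_MP_c93f48_co

/-- morphism `{0,1,2,3} → {0,208,530}` -/
def gU : ℕ → List ℕ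
  | 0 => [530,530,0,0,530,0,0,530,208,0,530,0,0,530,0,0,208,0,0,530,0,0,530,530,208,530,0,0,530,
      0,0,530,208,0,530,0,0,530,0,0,208,208,530,0,208,530,208,208]
  | 1 => [530,530,0,0,530,0,0,530,0,208,530,0,0,530,0,0,208,0,0,530,0,0,530,530,208,530,0,0,208,
      208,0,208,208,530,0,530,530,208,208,530,208,208,530,0,208,530,208,208]
  | 2 => [530,530,0,0,530,0,0,530,0,208,530,0,0,530,0,0,208,0,208,530,208,208,530,208,208,0,208,
      530,208,208,530,208,208,530,0,530,530,208,208,530,208,208,530,0,208,530,208,208]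
  | _ => [530,208,208,0,208,208,530,208,530,208,208,0,530,0,208,530,0,0,530,530,208,208,530,208,
      208,0,208,530,208,208,530,208,208,530,0,530,530,208,208,530,208,208,530,0,208,530,208,208]

/-- the set of all prefix classes mod 1040, as a bit mask -/
def maskU : ℕ :=
  0x1c001c000006060002006000000600000000000000080000008000000000e001010001c01008000000800000800000000100004010000000001000b820000806800000e002e060000000008000000800400000000000100100010000001c010006003800004800000400201c000000000c00800080080000008003030011c00401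

/-- the set of the classes of suffix type -/
def sufU : ℕ :=
  0x10000000000000000000000600000000000000000000008000000000000000000000000800000080000000000000010000401000000000100000200000060000000002000000000000800000080040000000000010000001000000000100000000000040000004002000000000000800000080080000008000030000000000

/-- class, and prefix weight (suffix weight for the classes of suffix type) -/
def tblU : List (ℕ × ℕ × ℕ) :=
  [(0,0,0), (10,24,5186), (22,2,1060), (23,3,1060), (24,4,1060), (28,8,2100), (40,14,4106),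
    (41,13,4106), (48,8,2120), (49,9,2120), (63,11,3046), (91,3,946), (103,25,7152),
    (119,5,1154), (130,30,6340), (131,17,5052), (170,16,4314), (171,17,4314), (172,18,4314),
    (181,7,1892), (194,28,8098), (219,25,5394), (222,20,5998), (243,29,6454), (244,30,6454),
    (245,31,6454), (257,9,2328), (258,10,2328), (272,10,2838), (282,14,3388), (283,15,3388),
    (284,16,3388), (312,24,6944), (328,6,1362), (340,16,4844), (390,6,1684), (403,27,7890),
    (431,19,5790), (469,13,3576), (470,14,3576), (477,35,7722), (478,36,7722), (479,37,7722),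
    (481,9,2630), (493,17,3596), (494,18,3596), (495,19,3596), (519,23,4656), (521,23,6736),
    (522,22,6736), (531,1,530), (549,15,4636), (555,5,1590), (556,6,1590), (557,7,1590),
    (559,9,2630), (572,12,3576), (612,26,7682), (622,2,416), (640,18,5582), (679,15,3784),
    (703,29,8628), (731,21,6528), (740,2,738), (750,26,5924), (751,27,5924), (752,28,5924),
    (768,10,2838), (776,32,6984), (789,11,2858), (790,12,2858), (791,13,2858), (831,1,208),
    (859,7,1892), (921,5,1154), (922,4,1154), (949,3,946), (950,4,946), (961,29,6132),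
    (977,11,3046), (978,12,3046), (985,33,7192), (986,34,7192), (1010,38,8252), (1011,39,8252),
    (1012,8,2100), (1026,20,4126), (1027,21,4126), (1028,22,4126)]

theorem strongU : Strong {s | s ∈ [0,1,2,3]} tw tw gU (lin 48 0 10352 1040)
    (clsm (1 : ℕ) (1 : ℕ) 1040) := by
  have := strong_of_mask [0,1,2,3] tw nw gU 48 0 10352 1040 1 1 1040 maskU 11
    (fun c => sufU.testBit c) (fun c => (tblU.lookup c).getD (0, 0))
    (by norm_num) (by intro b; simp [nw]) (by norm_num) (by decide) (by decide +kernel)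
    (by decide +kernel) (by decide +kernel) (by norm_num) (by decide +kernel) (by decide +kernel)
  rwa [zw_nw] at this

/-- discrepancy of the letter `530` -/
def disc (w : List ℕ) : ℤ := 3 * (w.count 530 : ℤ) - w.length

lemma disc_append (w w' : List ℕ) : disc (w ++ w') = disc w + disc w' := by
  simp [disc]; ring

lemma disc_gU : ∀ s ∈ [0,1,2,3], disc (gU s) = 0 := by
  decide +kernel

lemma disc_gU_take : ∀ s ∈ [0,1,2,3], ∀ k ∈ List.range 49,
    -3 ≤ disc ((gU s).take k) ∧ disc ((gU s).take k) ≤ 4 := by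
  decide +kernel

lemma length_gU : ∀ s ∈ [0,1,2,3], (gU s).length = 48 := by
  decide +kernel

lemma disc_flatMap : ∀ w : List ℕ, (∀ a ∈ w, a ∈ [0,1,2,3]) → disc (w.flatMap gU) = 0 := by
  intro w
  induction w with
  | nil => intro _; simp [disc]
  | cons a w ih =>
    intro hw
    rw [List.flatMap_cons, disc_append, disc_gU a (hw a (by simp)),
      ih (fun b hb => hw b (List.mem_cons_of_mem _ hb)), add_zero]

/-- every prefix of `gU(w)` has discrepancy in `[-3, 4]` -/
lemma disc_prefix (w : List ℕ) (hw : ∀ a ∈ w, a ∈ [0,1,2,3]) (P : List ℕ)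
    (hP : P <+: w.flatMap gU) : -3 ≤ disc P ∧ disc P ≤ 4 := by
  have hne : ∀ a ∈ w, gU a ≠ [] := fun a ha h => by
    have := length_gU a (hw a ha)
    rw [h] at this
    simp at this
  obtain ⟨m, hm, r, rfl, hcase⟩ := split_prefix gU w hne P hP
  rw [disc_append, disc_flatMap _ (fun a ha => hw a (List.mem_of_mem_take ha)), zero_add]
  rcases hcase with ⟨_, rfl⟩ | ⟨h1, h2, _⟩
  · simp [disc]
  · have hs := hw _ (List.getElem_mem h1)
    have hr : r = (gU w[m]).take r.length := List.prefix_iff_eq_take.1 h2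
    have hl : r.length ≤ 48 := (length_gU _ hs) ▸ h2.length_le
    rw [hr]
    exact disc_gU_take _ hs _ (List.mem_range.2 (by omega))

/-- the relabelling -/
def rel (i j : ℕ) (b : ℕ) : ℕ := if b = 530 then i else if b = 208 then j else 0

lemma wt_letters (v : ℕ → ℕ) (hv : v 0 = 0) : ∀ b : List ℕ, (∀ a ∈ b, a ∈ [0,208,530]) →
    wt tw (b.map v) = ((b.length : ℤ), ((v 208 * b.count 208 + v 530 * b.count 530 : ℕ) : ℤ)) := by
  intro b
  induction b with
  | nil => intro _; simp [Prod.ext_iff]
  | cons c b ih =>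
    intro hb
    rw [List.map_cons, wt_cons, ih (fun a ha => hb a (List.mem_cons_of_mem _ ha))]
    have hc := hb c (by simp)
    simp only [List.mem_cons, List.not_mem_nil, or_false] at hc
    rcases hc with rfl | rfl | rfl
    · ext
      · simp [tw]; ring
      · simp [tw, hv]
    · ext
      · simp [tw]; ring
      · simp [tw]; ring
    · ext
      · simp [tw]; ring
      · simp [tw]; ring

lemma wt_rel (i j : ℕ) (b : List ℕ) (hb : ∀ a ∈ b, a ∈ [0,208,530]) :
    wt tw (b.map (rel i j)) = ((b.length : ℤ), ((j * b.count 208 + i * b.count 530 : ℕ) : ℤ)) := by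
  rw [wt_letters (rel i j) (by simp [rel]) b hb]
  simp [rel]

lemma wt_id (b : List ℕ) (hb : ∀ a ∈ b, a ∈ [0,208,530]) :
    wt tw b = ((b.length : ℤ), ((208 * b.count 208 + 530 * b.count 530 : ℕ) : ℤ)) := by
  have := wt_letters id rfl b hb
  simpa using this

/-- equal weights after relabelling and small discrepancy give equal weights before -/
lemma same_of_rel (i j : ℕ) (hj : 5 ≤ j) (hc : Nat.Coprime i j) (u b1 b2 : List ℕ)
    (h1 : ∀ a ∈ b1, a ∈ [0,208,530]) (h2 : ∀ a ∈ b2, a ∈ [0,208,530])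
    (d0 : -3 ≤ disc u ∧ disc u ≤ 4) (d1 : -3 ≤ disc (u ++ b1) ∧ disc (u ++ b1) ≤ 4)
    (d2 : -3 ≤ disc (u ++ b1 ++ b2) ∧ disc (u ++ b1 ++ b2) ≤ 4)
    (e : wt tw (b1.map (rel i j)) = wt tw (b2.map (rel i j))) : wt tw b1 = wt tw b2 := by
  rw [wt_rel i j b1 h1, wt_rel i j b2 h2, Prod.mk.injEq] at e
  obtain ⟨e1, e2⟩ := e
  rw [disc_append] at d2
  rw [disc_append] at d1 d2
  have q1 : disc b1 = 3 * (b1.count 530 : ℤ) - b1.length := rfl
  have q2 : disc b2 = 3 * (b2.count 530 : ℤ) - b2.length := rfl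
  have hz : ((b1.count 530 : ℤ) - b2.count 530) ≤ 4 ∧ -4 ≤ ((b1.count 530 : ℤ) - b2.count 530) := by
    constructor <;> omega
  push_cast at e2
  have hdvd : (j : ℤ) ∣ (b1.count 530 : ℤ) - b2.count 530 := by
    have hco : IsCoprime (j : ℤ) (i : ℤ) := Nat.isCoprime_iff_coprime.2 hc.symm
    refine hco.dvd_of_dvd_mul_left ⟨(b2.count 208 : ℤ) - b1.count 208, ?_⟩
    linear_combination e2
  have hz0 : (b1.count 530 : ℤ) - b2.count 530 = 0 := by
    refine Int.eq_zero_of_abs_lt_dvd hdvd ?_
    rw [abs_lt]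
    constructor <;> omega
  have hy0 : (b1.count 208 : ℤ) = b2.count 208 := by
    have hj0 : (j : ℤ) ≠ 0 := by omega
    refine mul_left_cancel₀ hj0 ?_
    linear_combination e2 - (i : ℤ) * hz0
  rw [wt_id b1 h1, wt_id b2 h2]
  ext
  · exact e1
  · push_cast
    linear_combination 208 * hy0 + 530 * hz0

theorem unbU (i j : ℕ) (hj : 5 ≤ j) (hc : Nat.Coprime i j) :
    Unb {s | s ∈ [0, i, j]} tw := by
  intro n
  obtain ⟨w, hw, hl, hcf⟩ := unb0123 n
  have hwS : ∀ a ∈ w, a ∈ [0,1,2,3] := hw
  have hlet : ∀ b ∈ w.flatMap gU, b ∈ [0,208,530] := by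
    intro b hb
    obtain ⟨a, ha, hb'⟩ := List.mem_flatMap.1 hb
    have : ∀ a ∈ [0,1,2,3], ∀ b ∈ gU a, b ∈ [0,208,530] := by decide +kernel
    exact this a (hwS a ha) b hb'
  have hcfW : CF tw (w.flatMap gU) := strongU.preserves w hw hcf
  refine ⟨(w.flatMap gU).map (rel i j), ?_, ?_, ?_⟩
  · intro b hb
    obtain ⟨c, hc', rfl⟩ := List.mem_map.1 hb
    have := hlet c hc'
    simp only [List.mem_cons, List.not_mem_nil, or_false] at this
    show rel i j c ∈ [0, i, j]
    rcases this with rfl | rfl | rfl <;> simp [rel]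
  · rw [List.length_map]
    have := length_flatMap_ge gU 1 w (fun a ha => by rw [length_gU a (hwS a ha)]; norm_num)
    omega
  · intro u b1 b2 b3 v heq hb1 ⟨h12, h23⟩
    obtain ⟨U4, V, hW1, hU4, hV⟩ := List.map_eq_append_iff.1 heq
    obtain ⟨U3, B3, hW2, hU3, hB3⟩ := List.map_eq_append_iff.1 hU4
    obtain ⟨U2, B2, hW3, hU2, hB2⟩ := List.map_eq_append_iff.1 hU3
    obtain ⟨U1, B1, hW4, hU1, hB1⟩ := List.map_eq_append_iff.1 hU2
    subst hW2 hW3 hW4
    have pre : ∀ P Q : List ℕ, w.flatMap gU = P ++ Q → -3 ≤ disc P ∧ disc P ≤ 4 :=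
      fun P Q h => disc_prefix w hwS P ⟨Q, h.symm⟩
    have D0 := pre U1 (B1 ++ B2 ++ B3 ++ V) (by rw [hW1]; simp)
    have D1 := pre (U1 ++ B1) (B2 ++ B3 ++ V) (by rw [hW1]; simp)
    have D2 := pre (U1 ++ B1 ++ B2) (B3 ++ V) (by rw [hW1]; simp)
    have D3 := pre (U1 ++ B1 ++ B2 ++ B3) V hW1
    have l1 : ∀ a ∈ B1, a ∈ [0,208,530] := fun a ha => hlet a (by rw [hW1]; simp [ha])
    have l2 : ∀ a ∈ B2, a ∈ [0,208,530] := fun a ha => hlet a (by rw [hW1]; simp [ha])
    have l3 : ∀ a ∈ B3, a ∈ [0,208,530] := fun a ha => hlet a (by rw [hW1]; simp [ha])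
    have k12 := same_of_rel i j hj hc U1 B1 B2 l1 l2 D0 D1 D2 (by rw [hB1, hB2]; exact h12)
    have k23 := same_of_rel i j hj hc (U1 ++ B1) B2 B3 l2 l3 D1 D2 D3
      (by rw [hB2, hB3]; exact h23)
    refine hcfW U1 B1 B2 B3 V hW1 ?_ ⟨k12, k23⟩
    rintro rfl
    exact hb1 (by rw [← hB1]; rfl)

theorem avoid_universal (i j : ℕ) (_hi : 0 < i) (_hij : i < j) (hj : 5 ≤ j)
    (hc : Nat.Coprime i j) :
    ∃ x : ℕ → ℕ, (∀ k, x k ∈ ({0, i, j} : Finset ℕ)) ∧ NoCube x := by
  refine exists_noCube {0, i, j} ?_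
  have := unbU i j hj hc
  intro n
  obtain ⟨w, hw, hl, hcf⟩ := this n
  refine ⟨w, fun a ha => ?_, hl, hcf⟩
  have := hw a ha
  simpa using this

end Pool.Agent.W_MP_c93f48_co
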